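import Mathlib

set_option autoImplicit false
set_option maxHeartbeats 1000000

/-! # The strict numerical inequalities -/

namespace Pool.Agent.Y789.ED

theorem arithA' (q κ e : ℕ) (hκ : 1 ≤ κ) (h : κ + e ≤ q) :
    ((q : ℤ) ^ 2 + 1) + ((q : ℤ) ^ 2 + 1) * ((q : ℤ) ^ 3 * e + κ * (e * ((q : ℤ) ^ 2 - q))) +
      ((κ - 1) * (q : ℤ) ^ 2 + κ * (e + 1)) * ((q : ℤ) ^ 2 * (q - e)) +
      e * (κ * ((q : ℤ) ^ 2 * (q - e)) + ((q : ℤ) ^ 3 - q)) <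
    (κ + e) * ((q : ℤ) ^ 5 + (q : ℤ) ^ 2) + (if κ + e = q then (q : ℤ) ^ 3 + 1 else 0) := by
  obtain ⟨k, rfl⟩ : ∃ k, κ = k + 1 := ⟨κ - 1, by omega⟩
  rw [← sub_pos]
  split_ifs with hs
  · subst hs
    push_cast
    ring_nf
    positivity
  · obtain ⟨s, rfl⟩ : ∃ s, q = k + 1 + e + 1 + s := ⟨q - (k + 1 + e + 1), by omega⟩
    push_cast
    ring_nf
    positivity

set_option maxRecDepth 10000 in
theorem arithB' (q i j e : ℕ) (hi : 1 ≤ i) (he : 1 ≤ e) (h : i + j + e ≤ q)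
    (hne : i + j + e < q ∨ 1 ≤ j ∨ 2 ≤ e) :
    ((q : ℤ) ^ 2 + 1) + ((q : ℤ) ^ 2 + 1) * ((q : ℤ) ^ 3 * e + j * (q * ((q : ℤ) ^ 2 - e))) +
      (e + q * i) * (i * (q * ((q : ℤ) ^ 2 - e)) + ((q : ℤ) ^ 3 - q)) <
    (i + j + e) * ((q : ℤ) ^ 5 + (q : ℤ) ^ 2) + (if i + j + e = q then (q : ℤ) ^ 3 + 1 else 0) := by
  obtain ⟨i, rfl⟩ : ∃ k, i = k + 1 := ⟨i - 1, by omega⟩
  rw [← sub_pos]
  split_ifs with hs
  · subst hs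
    rcases hne with hne | hne | hne
    · omega
    · obtain ⟨e, rfl⟩ : ∃ k, e = k + 1 := ⟨e - 1, by omega⟩
      obtain ⟨j, rfl⟩ : ∃ k, j = k + 1 := ⟨j - 1, by omega⟩
      push_cast
      ring_nf
      positivity
    · obtain ⟨e, rfl⟩ : ∃ k, e = k + 2 := ⟨e - 2, by omega⟩
      push_cast
      ring_nf
      positivity
  · obtain ⟨e, rfl⟩ : ∃ k, e = k + 1 := ⟨e - 1, by omega⟩
    obtain ⟨s, rfl⟩ : ∃ s, q = i + 1 + j + (e + 1) + 1 + s :=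
      ⟨q - (i + 1 + j + (e + 1) + 1), by omega⟩
    push_cast
    ring_nf
    positivity

theorem arithC (q : ℕ) (h : 2 ≤ q) :
    ((q : ℤ) ^ 2 + 1) + ((q : ℤ) ^ 2 + 1) * (q : ℤ) ^ 3 +
      (1 + q * (q - 1)) * ((q : ℤ) ^ 4 - (q : ℤ) ^ 3) <
    q * ((q : ℤ) ^ 5 + (q : ℤ) ^ 2) + ((q : ℤ) ^ 3 + 1) := by
  obtain ⟨s, rfl⟩ : ∃ s, q = s + 2 := ⟨q - 2, by omega⟩
  rw [← sub_pos]
  push_cast
  ring_nf
  positivity

end Pool.Agent.Y789.ED
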