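import Pool.Agent.Y789.ED.Loc

set_option autoImplicit false
set_option maxHeartbeats 800000

/-! # The strict main estimate for a hypersurface containing a generator -/

namespace Pool.Agent.Y789.ED

open Finset MvPolynomial Pool.Agent.H566R3

variable {K : Type} [Field K] [Fintype K] [DecidableEq K] {q : ℕ}

theorem engine' (hq : Fintype.card K = q ^ 2) {c : K} (hc : c ^ q = c) (hc0 : c ≠ 0)
    {F : MvPolynomial (Fin 5) K} {D κ e : ℕ} (hF : F.IsHomogeneous D)
    (hD : D = κ + e) (hκ : 1 ≤ κ) (hDq : D ≤ q) (h01 : Deg01 F e)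
    (htop : ∃ s, coeff s F ≠ 0 ∧ s 0 + s 1 = e) (hNL : NL F) :
    ((q : ℤ) ^ 2 + 1) + Tot q c D F <
      D * ((q : ℤ) ^ 5 + (q : ℤ) ^ 2) + (if D = q then (q : ℤ) ^ 3 + 1 else 0) := by
  classical
  have h2 := two_le_q hq
  have q2 : (2 : ℤ) ≤ q := by exact_mod_cast h2
  have heq : e < q := by omega
  have eq1 : (e : ℤ) < q := by exact_mod_cast heq
  have e0 : (0 : ℤ) ≤ e := by positivity
  choose x hx1 hx2 hx3 using fun t : K => exists_order (h01.ut q t) (hNL.ut q t)
  obtain ⟨y, hy1, hy2, hy3⟩ := exists_order h01.wt hNL.wt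
  -- the maximal power of the last variable in the top part
  have hne : (F.support.filter fun s => s 0 + s 1 = e).Nonempty := by
    obtain ⟨s, hs, h⟩ := htop
    exact ⟨s, mem_filter.2 ⟨mem_support_iff.2 hs, h⟩⟩
  obtain ⟨s₀, hs₀, hmax⟩ := exists_max_image _ (fun s : Fin 5 →₀ ℕ => s 4) hne
  rw [mem_filter, mem_support_iff] at hs₀
  obtain ⟨j, hj⟩ : ∃ j, j = s₀ 4 := ⟨_, rfl⟩
  rw [← hj] at hmax
  have hs₀h := homog_sum hF hs₀.1
  have hjκ : j ≤ κ := by omega
  have hmax' : ∀ s, coeff s F ≠ 0 → s 0 + s 1 = e → s 4 ≤ j := fun s hs h =>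
    hmax s (mem_filter.2 ⟨mem_support_iff.2 hs, h⟩)
  -- orders
  have hX : ∑ t, x t + y ≤ e + q * (κ - j) := by
    have hP : Ph q F e j ≠ 0 := by
      rw [hj]; exact Ph_ne_zero hF heq hs₀.1 hs₀.2
    have h3 := sum_orders x (Ph q F e j) hP fun t => dvd_Ph hq t heq (hx1 t) (hx2 t) j
    have h4 := natDegree_Ph_le (x := y) hF hD heq hy1 (by
      intro s hs hs2
      have h5 := hy2 (ix (s 1) (s 0) (s 3) (s 2) (s 4)) (by
        rw [coeff_Wt]
        simp only [ix_0, ix_1, ix_2, ix_3, ix_4]
        rw [← eq_ix s]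
        exact hs) (by simp [hs2])
      simpa using h5) j hjκ
    have : y ≤ e + q * (κ - j) := by
      have := Nat.zero_le (q * (κ - j))
      omega
    omega
  have hrt : ∀ t l, arr (Ut q t F) D 0 e l ≠ 0 → l ≤ j := by
    intro t l hl
    rw [← Ph_eval hq hF heq] at hl
    have h3 : Ph q F e l ≠ 0 := by
      intro h; rw [h, Polynomial.eval_zero] at hl; exact hl rfl
    obtain ⟨n, hn⟩ : ∃ n, (Ph q F e l).coeff n ≠ 0 := by
      by_contra hcon
      push Not at hcon
      exact h3 (Polynomial.ext fun n => by rw [hcon n, Polynomial.coeff_zero])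
    obtain ⟨s, hs, h4, h5, _⟩ := exists_of_coeff_Ph hn
    rw [← h5]
    exact hmax' s hs h4
  have hrw : ∀ l, arr (Wt F) D 0 e l ≠ 0 → l ≤ j := by
    intro l hl
    rw [arr] at hl
    split_ifs at hl with h3
    · rw [coeff_Wt] at hl
      have := hmax' _ hl (by simp)
      simpa using this
    · exact absurd rfl hl
  have hut : ∀ t, _ := fun t : K => loc_uniform (r := j) (x := x t) hq hc hc0 (homog_ut hF q t) hD hκ
    hDq (h01.ut q t) (hx1 t) (hx3 t) (hrt t) hjκ
  have huw := loc_uniform (r := j) (x := y) hq hc hc0 (homog_wt hF) hD hκ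
    hDq h01.wt hy1 hy3 hrw hjκ
  have hcardK : ((Finset.univ : Finset K).card : ℤ) = (q : ℤ) ^ 2 := by
    rw [card_univ, hq]; push_cast; ring
  have hpT := pTot_le hq hF hD hκ hDq h01 htop hNL
  have hpT' : (pTot q D F : ℤ) ≤ (κ - 1) * (q : ℤ) ^ 2 + κ * (e + 1) := by
    have : (pTot q D F : ℤ) ≤ (((κ - 1) * q ^ 2 + κ * (e + 1) : ℕ) : ℤ) := by exact_mod_cast hpT
    push_cast [Nat.cast_sub hκ] at this
    exact this
  have hTot : (Tot q c D F : ℤ) = ∑ t : K, (nloc q (q + 1) c (arr (Ut q t F) D) : ℤ) +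
      nloc q (q + 1) c (arr (Wt F) D) := by
    rw [Tot]; push_cast; rfl
  have hpTot : (pTot q D F : ℤ) = ∑ t : K, (ploc (q + 1) (arr (Ut q t F) D) : ℤ) +
      ploc (q + 1) (arr (Wt F) D) := by
    rw [pTot]; push_cast; rfl
  have hX' : (∑ t, (x t : ℤ)) + y ≤ e + q * (κ - j) := by
    have : ((∑ t, x t + y : ℕ) : ℤ) ≤ ((e + q * (κ - j) : ℕ) : ℤ) := by exact_mod_cast hX
    push_cast [Nat.cast_sub hjκ] at this
    exact this
  have w1 : (0 : ℤ) ≤ (q : ℤ) ^ 2 * (q - e) := mul_nonneg (by positivity) (by linarith)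
  have w2 : (0 : ℤ) ≤ q * ((q : ℤ) ^ 2 - e) := mul_nonneg (by positivity) (by nlinarith)
  have w3 : (0 : ℤ) ≤ (q : ℤ) ^ 3 - q := by nlinarith
  by_cases hcase : e = 0 ∨ j = κ
  · -- first case
    obtain ⟨α, hα⟩ : ∃ α : ℤ, α = (q : ℤ) ^ 3 * e + j * (e * ((q : ℤ) ^ 2 - q)) := ⟨_, rfl⟩
    obtain ⟨β, hβ⟩ : ∃ β : ℤ, β = ((κ - j) * (q * ((q : ℤ) ^ 2 - e)) +
      j * ((q : ℤ) ^ 2 * (q - e)) + ((q : ℤ) ^ 3 - q)) := ⟨_, rfl⟩
    have hs : (Tot q c D F : ℤ) ≤ ((q : ℤ) ^ 2 + 1) * α + pTot q D F * ((q : ℤ) ^ 2 * (q - e)) +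
        ((∑ t, (x t : ℤ)) + y) * β := by
      rw [hTot, hpTot]
      have h3 : ∑ t : K, (nloc q (q + 1) c (arr (Ut q t F) D) : ℤ) ≤
          ∑ t : K, (α + ploc (q + 1) (arr (Ut q t F) D) * ((q : ℤ) ^ 2 * (q - e)) + x t * β) := by
        refine sum_le_sum fun t _ => ?_
        rw [hα, hβ]
        exact (hut t).1
      have h4 := huw.1
      rw [← hα, ← hβ] at h4
      rw [sum_add_distrib, sum_add_distrib, sum_const, nsmul_eq_mul, hcardK, ← sum_mul,
        ← sum_mul] at h3
      linarith
    have hA := arithA' q κ e hκ (by omega)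
    have hD' : (D : ℤ) = κ + e := by rw [hD]; push_cast; ring
    have hif : (if D = q then (q : ℤ) ^ 3 + 1 else 0) = (if κ + e = q then (q : ℤ) ^ 3 + 1 else 0) := by
      rw [hD]
    rw [hif, hD']
    have h5 := mul_le_mul_of_nonneg_right hpT' w1
    rcases hcase with he0 | hjk
    · have hx0 : (∑ t, (x t : ℤ)) + y = 0 := by
        have h6 : ∀ t, x t = 0 := fun t => by have := hx1 t; omega
        have h7 : y = 0 := by omega
        simp [h6, h7]
      rw [hx0, zero_mul, add_zero] at hs
      have he0' : (e : ℤ) = 0 := by exact_mod_cast he0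
      rw [hα] at hs
      rw [he0'] at hs h5 hA ⊢
      simp only [mul_zero, zero_mul, add_zero, sub_zero, zero_add] at hs h5 hA ⊢
      linarith
    · have hjk' : (j : ℤ) = κ := by exact_mod_cast hjk
      rw [hjk', sub_self, mul_zero, add_zero] at hX'
      rw [hjk'] at hα hβ
      rw [sub_self, zero_mul, zero_add] at hβ
      have hβ0 : 0 ≤ β := by
        rw [hβ]
        have : (0 : ℤ) ≤ κ * ((q : ℤ) ^ 2 * (q - e)) := mul_nonneg (by positivity) w1
        linarith
      have h6 := mul_le_mul_of_nonneg_right hX' hβ0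
      rw [hα] at hs
      rw [hβ] at hs h6
      linarith
  · push Not at hcase
    by_cases hcrit : D = q ∧ j = 0 ∧ e = 1
    · -- the critical case
      obtain ⟨hDq', hj0, he1⟩ := hcrit
      have htop4 : ∀ s, coeff s F ≠ 0 → s 0 + s 1 = 1 → s 4 = 0 := by
        intro s hs h
        have := hmax' s hs (by omega)
        omega
      have h01F : Deg01 F 1 := he1 ▸ h01
      have hkap : (κ : ℤ) = q - 1 := by
        have : κ + 1 = q := by omega
        have : ((κ + 1 : ℕ) : ℤ) = q := by rw [this]
        push_cast at this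
        linarith
      -- local bounds
      have hlu : ∀ t, (nloc q (q + 1) c (arr (Ut q t F) D) : ℤ) ≤
          (q : ℤ) ^ 3 + x t * ((q : ℤ) ^ 4 - (q : ℤ) ^ 3) := by
        intro t
        have hx1' := hx1 t
        rcases Nat.eq_zero_or_pos (x t) with h0 | h0
        · have h3 := (hut t).2
          rw [h0, hj0, he1] at h3
          rw [h0]
          push_cast at h3 ⊢
          linarith
        · have hx : x t = 1 := by omega
          obtain ⟨s, hs, hs3, hs1⟩ := hx3 t
          have harr := arr_of_coeff (homog_ut hF q t) hs hs3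
          have hs10 : s 1 = 0 := by omega
          have h3 := loc_special (N := q + 1) (D := D) hq hc (by omega) (by omega) hDq (arr (Ut q t F) D)
            (by
              intro i' j' l' h
              have h4 := arr_supp (h01.ut q t) i' j' l' h
              have h5 := hx2 t (ix i' j' (D - i' - j' - l') 0 l') (by
                rw [arr, if_pos h4.2] at h; exact h) (by simp)
              rw [ix_1] at h5
              refine ⟨by omega, by omega, by omega⟩)
            ⟨s 0, s 4, by rw [hs10] at harr; rw [harr]; exact hs⟩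
            (by
              intro w
              have ha' : ∀ i' j' l', arr (Ut q t F) D i' j' l' ≠ 0 → i' ≤ 1 ∧ j' = 0 := by
                intro i' j' l' h
                have h4 := arr_supp (h01.ut q t) i' j' l' h
                have h5 := hx2 t (ix i' j' (D - i' - j' - l') 0 l') (by
                  rw [arr, if_pos h4.2] at h; exact h) (by simp)
                rw [ix_1] at h5
                exact ⟨by omega, by omega⟩
              have f : ∀ τ w, eval ![τ, 0, 1, -t ^ q, w] F =
                  pv (q + 1) (fun l => arr (Ut q t F) D 0 0 l) w +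
                    pv (q + 1) (fun l => arr (Ut q t F) D 1 0 l) w * τ := by
                intro τ w
                rw [← fv_special (by omega) _ ha' τ 0 w, ← eval_arr (homog_ut hF q t) (by omega),
                  eval_ut]
                simp
              have h6 := shape h01F htop4 1 0 1 (-t ^ q) w
              rw [f, f, f, f] at h6
              linear_combination h6)
          rw [hx]
          have h4 : (nloc q (q + 1) c (arr (Ut q t F) D) : ℤ) ≤ ((q ^ 4 : ℕ) : ℤ) := by
            exact_mod_cast h3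
          push_cast at h4 ⊢
          linarith
      have hlw : (nloc q (q + 1) c (arr (Wt F) D) : ℤ) ≤
          (q : ℤ) ^ 3 + y * ((q : ℤ) ^ 4 - (q : ℤ) ^ 3) := by
        rcases Nat.eq_zero_or_pos y with h0 | h0
        · have h3 := huw.2
          rw [h0, hj0, he1] at h3
          rw [h0]
          push_cast at h3 ⊢
          linarith
        · have hx : y = 1 := by omega
          obtain ⟨s, hs, hs3, hs1⟩ := hy3
          have harr := arr_of_coeff (homog_wt hF) hs hs3
          have hs10 : s 1 = 0 := by omega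
          have ha' : ∀ i' j' l', arr (Wt F) D i' j' l' ≠ 0 → i' ≤ 1 ∧ j' = 0 ∧ l' ≤ D := by
            intro i' j' l' h
            have h4 := arr_supp h01.wt i' j' l' h
            have h5 := hy2 (ix i' j' (D - i' - j' - l') 0 l') (by
              rw [arr, if_pos h4.2] at h; exact h) (by simp)
            rw [ix_1] at h5
            exact ⟨by omega, by omega, by omega⟩
          have h3 := loc_special (N := q + 1) (D := D) hq hc (by omega) (by omega) hDq (arr (Wt F) D) ha'
            ⟨s 0, s 4, by rw [hs10] at harr; rw [harr]; exact hs⟩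
            (by
              intro w
              have f : ∀ τ w, eval ![0, τ, 0, 1, w] F =
                  pv (q + 1) (fun l => arr (Wt F) D 0 0 l) w +
                    pv (q + 1) (fun l => arr (Wt F) D 1 0 l) w * τ := by
                intro τ w
                rw [← fv_special (by omega) _ (fun i j l h => ⟨(ha' i j l h).1, (ha' i j l h).2.1⟩)
                  τ 0 w, ← eval_arr (homog_wt hF) (by omega), eval_wt]
                simp
              have h6 := shape h01F htop4 0 1 0 1 w
              rw [f, f, f, f] at h6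
              linear_combination h6)
          rw [hx]
          have h4 : (nloc q (q + 1) c (arr (Wt F) D) : ℤ) ≤ ((q ^ 4 : ℕ) : ℤ) := by
            exact_mod_cast h3
          push_cast at h4 ⊢
          linarith
      have hs : (Tot q c D F : ℤ) ≤ ((q : ℤ) ^ 2 + 1) * (q : ℤ) ^ 3 +
          ((∑ t, (x t : ℤ)) + y) * ((q : ℤ) ^ 4 - (q : ℤ) ^ 3) := by
        rw [hTot]
        have h3 : ∑ t : K, (nloc q (q + 1) c (arr (Ut q t F) D) : ℤ) ≤
            ∑ t : K, ((q : ℤ) ^ 3 + x t * ((q : ℤ) ^ 4 - (q : ℤ) ^ 3)) :=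
          sum_le_sum fun t _ => hlu t
        rw [sum_add_distrib, sum_const, nsmul_eq_mul, hcardK, ← sum_mul] at h3
        linarith
      have hC := arithC q h2
      have hβ0 : (0 : ℤ) ≤ (q : ℤ) ^ 4 - (q : ℤ) ^ 3 := by
        have : (q : ℤ) ^ 4 - (q : ℤ) ^ 3 = (q : ℤ) ^ 3 * (q - 1) := by ring
        rw [this]
        exact mul_nonneg (by positivity) (by linarith)
      have h6 := mul_le_mul_of_nonneg_right hX' hβ0
      rw [he1, hj0, hkap] at h6
      rw [if_pos hDq', show (D : ℤ) = q by rw [hDq']]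
      push_cast at h6
      rw [sub_zero] at h6
      linarith
    · -- second case
      obtain ⟨i, hi⟩ : ∃ i, κ = i + j := ⟨κ - j, by omega⟩
      have hi1 : 1 ≤ i := by omega
      have hi' : (κ : ℤ) = i + j := by rw [hi]; push_cast; ring
      obtain ⟨α, hα⟩ : ∃ α : ℤ, α = (q : ℤ) ^ 3 * e + j * (q * ((q : ℤ) ^ 2 - e)) := ⟨_, rfl⟩
      obtain ⟨β, hβ⟩ : ∃ β : ℤ, β = ((κ - j) * (q * ((q : ℤ) ^ 2 - e)) + ((q : ℤ) ^ 3 - q)) :=
        ⟨_, rfl⟩
      have hs : (Tot q c D F : ℤ) ≤ ((q : ℤ) ^ 2 + 1) * α + ((∑ t, (x t : ℤ)) + y) * β := by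
        rw [hTot]
        have h3 : ∑ t : K, (nloc q (q + 1) c (arr (Ut q t F) D) : ℤ) ≤
            ∑ t : K, (α + x t * β) := by
          refine sum_le_sum fun t _ => ?_
          rw [hα, hβ]
          exact (hut t).2
        have h4 := huw.2
        rw [← hα, ← hβ] at h4
        rw [sum_add_distrib, sum_const, nsmul_eq_mul, hcardK, ← sum_mul] at h3
        linarith
      have hB := arithB' q i j e hi1 (by omega) (by omega) (by omega)
      have hD' : (D : ℤ) = i + j + e := by rw [hD, hi]; push_cast; ring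
      have hif : (if D = q then (q : ℤ) ^ 3 + 1 else 0) =
          (if i + j + e = q then (q : ℤ) ^ 3 + 1 else 0) := by
        rw [hD, hi]
      rw [hif, hD']
      rw [hi', add_sub_cancel_right] at hX' hβ
      have hβ0 : 0 ≤ β := by
        rw [hβ]
        have : (0 : ℤ) ≤ i * (q * ((q : ℤ) ^ 2 - e)) := mul_nonneg (by positivity) w2
        linarith
      have h6 := mul_le_mul_of_nonneg_right hX' hβ0
      rw [hα] at hs
      rw [hβ] at hs h6
      linarith


end Pool.Agent.Y789.ED
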