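import Pool.Agent.H566R3.Lin2
import Pool.Agent.Y789.ED.Engine

set_option autoImplicit false
set_option maxHeartbeats 800000

/-! # The strict bound without linear components -/

namespace Pool.Agent.Y789.ED

open Finset MvPolynomial Pool.Agent.H566R3

variable {K : Type} [Field K] [Fintype K] [DecidableEq K] {q : ℕ}

theorem gen_frame' (hq : Fintype.card K = q ^ 2) {c : K} (hc : c ^ q = c) (hc0 : c ≠ 0)
    {G : MvPolynomial (Fin 5) K} {D : ℕ} (hG : G.IsHomogeneous D) (hDq : D ≤ q)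
    (hNL : NL G) (hline : ∀ a b : K, eval ![a, b, 0, 0, 0] G = 0) :
    ((Finset.univ : Finset (Fin 5 → K)).filter
      fun v => v ≠ 0 ∧ eval v G = 0 ∧ nf q c v = 0).card <
      (Fintype.card K - 1) * (D * (q ^ 5 + q ^ 2) + if D = q then q ^ 3 + 1 else 0) := by
  classical
  have h2 := two_le_q hq
  have hDc : D < Fintype.card K := by rw [hq]; nlinarith
  obtain ⟨v, _, hv⟩ := hNL ![1, 0, 0, 0, 0] (by
    intro h
    exact one_ne_zero (congrFun h 0))
  have hG0 : G ≠ 0 := by
    rintro rfl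
    exact hv (map_zero _)
  have hsupp : G.support.Nonempty := by
    rwa [Finset.nonempty_iff_ne_empty, Ne, MvPolynomial.support_eq_empty]
  obtain ⟨s₀, hs₀, hmax⟩ := exists_max_image _ (fun s : Fin 5 →₀ ℕ => s 0 + s 1) hsupp
  rw [mem_support_iff] at hs₀
  have hlt := top_zero_of_line hG hDc hline s₀ hs₀
  obtain ⟨e, he⟩ : ∃ e, e = s₀ 0 + s₀ 1 := ⟨_, rfl⟩
  obtain ⟨κ, hκ⟩ : ∃ κ, κ = D - e := ⟨_, rfl⟩
  have hE := engine' (e := e) (κ := κ) hq hc hc0 hG (by omega) (by omega) hDq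
    (fun s hs => by rw [he]; exact hmax s (mem_support_iff.2 hs))
    ⟨s₀, hs₀, he.symm⟩ hNL
  rw [decomp hq hc0 (fun v => eval v G = 0) (by
    intro a ha v hv
    rw [homog_smul hG, hv, mul_zero])]
  have hTot : ∑ t : K, chT q c (fun v => eval v G = 0) t + chW q c (fun v => eval v G = 0) =
      Tot q c D G := by
    rw [Tot, chW_eq hG hDq]
    congr 1
    exact sum_congr rfl fun t _ => chT_eq hG hDq c t
  rw [hTot]
  have h1 : ((Finset.univ : Finset (K × K)).filter fun p => p ≠ 0 ∧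
      eval ![p.1, p.2, 0, 0, 0] G = 0).card = (Fintype.card K - 1) * (q ^ 2 + 1) := by
    have : ((Finset.univ : Finset (K × K)).filter fun p => p ≠ 0 ∧
        eval ![p.1, p.2, 0, 0, 0] G = 0) = Finset.univ.erase 0 := by
      ext p
      simp [hline]
    rw [this, card_erase_of_mem (mem_univ _), card_univ, Fintype.card_prod, hq]
    obtain ⟨m, hm⟩ : ∃ m, q ^ 2 = m + 1 := ⟨q ^ 2 - 1, by
      have : 0 < q ^ 2 := by positivity
      omega⟩
    rw [hm]
    have : (m + 1) * (m + 1) - 1 = m * (m + 1 + 1) := by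
      have : (m + 1) * (m + 1) = m * (m + 1 + 1) + 1 := by ring
      omega
    rw [this, Nat.add_sub_cancel]
  rw [h1, ← Nat.mul_add]
  apply Nat.mul_lt_mul_of_pos_left _ (by rw [hq]; have : 2 ≤ q ^ 2 := by nlinarith
                                         omega)
  have : ((q ^ 2 + 1 + Tot q c D G : ℕ) : ℤ) <
      ((D * (q ^ 5 + q ^ 2) + if D = q then q ^ 3 + 1 else 0 : ℕ) : ℤ) := by
    push_cast
    exact hE
  exact_mod_cast this

theorem gen_case' (hq : Fintype.card K = q ^ 2) {F : MvPolynomial (Fin 5) K} {D : ℕ}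
    (hF : F.IsHomogeneous D) (hDq : D ≤ q) (hNL : NL F) {R1 R2 : Fin 5 → K} (hR : Iso q R1 R2)
    (hcont : ∀ a b : K, eval (a • R1 + b • R2) F = 0) :
    ((Finset.univ : Finset (Fin 5 → K)).filter
      fun v => v ≠ 0 ∧ eval v F = 0 ∧ sf q v v = 0).card <
      (Fintype.card K - 1) * (D * (q ^ 5 + q ^ 2) + if D = q then q ^ 3 + 1 else 0) := by
  obtain ⟨φ, c, hc, hc0, hφ1, hφ2⟩ := frame hq hR.1 hR.2.1 hR.2.2.1 hR.2.2.2
  have hφ3 := nf_of_sf hφ2
  rw [transfer φ hφ3 fun v => eval v F = 0]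
  have h := gen_frame' hq hc hc0 (homog_linS φ hF) hDq (NL_linS φ hNL) (by
    intro a b
    rw [eval_linS, hφ1]
    have hv0 : φ ![0, 0, 0, 0, 0] = 0 := by
      have : (![0, 0, 0, 0, 0] : Fin 5 → K) = 0 := by
        funext i
        fin_cases i <;> rfl
      rw [this, map_zero]
    simp only [Matrix.cons_val]
    rw [hv0, add_zero]
    exact hcont a b)
  simp only [eval_linS] at h
  exact h

/-- the bound for hypersurfaces without linear components -/
theorem NL_bound' (hq : Fintype.card K = q ^ 2) {F : MvPolynomial (Fin 5) K} {D : ℕ}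
    (hF : F.IsHomogeneous D) (hD : 1 ≤ D) (hDq : D ≤ q) (hNL : NL F) :
    ((Finset.univ : Finset (Fin 5 → K)).filter
      fun v => v ≠ 0 ∧ eval v F = 0 ∧ sf q v v = 0).card <
      (Fintype.card K - 1) * (D * (q ^ 5 + q ^ 2) + if D = q then q ^ 3 + 1 else 0) := by
  have h2 := two_le_q hq
  by_cases hcon : ∃ R1 R2, Iso q R1 R2 ∧ ∀ a b : K, eval (a • R1 + b • R2) F = 0
  · obtain ⟨R1, R2, hR, h⟩ := hcon
    exact gen_case' hq hF hDq hNL hR h
  · push Not at hcon
    refine (case0 hq hF hD (by rw [hq]; nlinarith) hcon).trans_lt ?_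
    apply Nat.mul_lt_mul_of_pos_left _ (by rw [hq]; have : 2 ≤ q ^ 2 := by nlinarith
                                           omega)
    refine lt_of_lt_of_le (Nat.mul_lt_mul_of_pos_left ?_ (by omega)) (Nat.le_add_right _ _)
    have : 2 ≤ q ^ 2 := by nlinarith
    omega

end Pool.Agent.Y789.ED
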