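import Pool.Agent.Y789.ED.Main

/-! # The characterisation of equality -/

set_option autoImplicit false
set_option maxHeartbeats 800000

namespace Pool.Agent.Y789.ED

open Finset Module MvPolynomial Pool.Agent.H566R3

variable {K : Type} [Field K] [Fintype K] [DecidableEq K] {q : ℕ}

theorem NV_split (P R : (Fin 5 → K) → Prop) [DecidablePred P] [DecidablePred R] :
    NV q P = NV q (fun v => P v ∧ R v) + NV q (fun v => P v ∧ ¬ R v) := by
  unfold NV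
  rw [← card_union_of_disjoint]
  · congr 1
    ext v
    simp only [mem_filter, mem_univ, true_and, mem_union]
    tauto
  · rw [disjoint_left]
    intro v h1 h2
    rw [mem_filter] at h1 h2
    exact h2.2.2.1.2 h1.2.2.1.2

theorem NV_congr {P R : (Fin 5 → K) → Prop} [DecidablePred P] [DecidablePred R]
    (h : ∀ v, P v ↔ R v) : NV q P = NV q R := by
  unfold NV
  congr 1
  ext v
  simp only [mem_filter, mem_univ, true_and, h]

theorem NV_hyp (a : Fin 5 → K) :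
    (NV q (fun v => dt a v = 0) : ℤ) = Zc q (hyp a) - 1 := by
  classical
  rw [← NV_sub (hyp a)]
  have : NV q (fun v => dt a v = 0) = NV q (fun v => v ∈ hyp a) := NV_congr fun v => Iff.rfl
  rw [this]

theorem cardK (hq : Fintype.card K = q ^ 2) : ((Fintype.card K - 1 : ℕ) : ℤ) = (q : ℤ) ^ 2 - 1 := by
  have h2 := two_le_q hq
  have : 1 ≤ q ^ 2 := Nat.one_le_iff_ne_zero.2 (by positivity)
  rw [hq]
  push_cast [Nat.cast_sub this]
  ring

theorem forward (hq : Fintype.card K = q ^ 2) {e : ℕ} (ℓ : Fin (e + 1) → Fin 5 → K)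
    (h0 : ∀ i, ℓ i ≠ 0)
    (h : NV q (fun v => ∃ i, dt (ℓ i) v = 0) =
      (Fintype.card K - 1) * ((e + 1) * (q ^ 5 + q ^ 2) + q ^ 3 + 1)) :
    (∀ i j, i ≠ j → hyp (ℓ i) ≠ hyp (ℓ j)) ∧ (∀ i, ∑ j, ℓ i j ^ (q + 1) ≠ 0) ∧
    ∃ W : Submodule K (Fin 5 → K), finrank K W = 3 ∧ (∀ i, W ≤ hyp (ℓ i)) ∧ rad q W = ⊥ := by
  classical
  have h2 := two_le_q hq
  have q2 : (2 : ℤ) ≤ q := by exact_mod_cast h2
  obtain ⟨s, hs⟩ : ∃ s, q = s + 2 := ⟨q - 2, by omega⟩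
  have hK := cardK hq
  have hdist : ∀ i j, i ≠ j → hyp (ℓ i) ≠ hyp (ℓ j) := by
    intro i k hik heq
    have h3 := (tight hq ℓ h0 h k).2.1 i hik
    have h4 : NV q (fun v => dt (ℓ i) v = 0 ∧ dt (ℓ k) v ≠ 0) = 0 := by
      unfold NV
      rw [card_eq_zero, filter_eq_empty_iff]
      rintro v - ⟨-, ⟨h5, h6⟩, -⟩
      apply h6
      have : v ∈ hyp (ℓ k) := by rw [← heq]; exact h5
      exact this
    rw [h4] at h3
    have h5 : (0 : ℤ) = ((Fintype.card K - 1 : ℕ) : ℤ) * (q ^ 5 + q ^ 2) := by exact_mod_cast h3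
    rw [hK, hs] at h5
    push_cast at h5
    have : (0 : ℤ) < (((s : ℤ) + 2) ^ 2 - 1) * ((s + 2) ^ 5 + (s + 2) ^ 2) := by
      ring_nf; positivity
    linarith
  have htan : ∀ i, ∑ j, ℓ i j ^ (q + 1) ≠ 0 := by
    intro i hi
    have h3 := (tight hq ℓ h0 h i).1
    have h4 : (NV q (fun v => dt (ℓ i) v = 0) : ℤ) =
        ((Fintype.card K - 1 : ℕ) : ℤ) * (q ^ 5 + q ^ 3 + q ^ 2 + 1) := by exact_mod_cast h3
    rw [NV_hyp, Zc_tan hq (h0 i) hi, zz3, hK, hs] at h4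
    push_cast at h4
    have : (0 : ℤ) < ((s : ℤ) + 2) ^ 5 - (s + 2) ^ 3 := by
      ring_nf; positivity
    nlinarith
  have hplane : ∀ i k, i ≠ k → finrank K ↥(hyp (ℓ i) ⊓ hyp (ℓ k)) = 3 ∧
      (Zc q (hyp (ℓ i) ⊓ hyp (ℓ k)) : ℤ) = zz q 3 ∧ rad q (hyp (ℓ i) ⊓ hyp (ℓ k)) = ⊥ := by
    intro i k hik
    have h3 := (tight hq ℓ h0 h k).2.1 i hik
    have h4 := (tight hq ℓ h0 h i).1
    have h5 := NV_split (q := q) (fun v => dt (ℓ i) v = 0) (fun v => dt (ℓ k) v = 0)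
    have h6 : NV q (fun v => dt (ℓ i) v = 0 ∧ dt (ℓ k) v = 0) =
        NV q (fun v => v ∈ hyp (ℓ i) ⊓ hyp (ℓ k)) := NV_congr fun v => Iff.rfl
    have h7 := NV_sub (q := q) (hyp (ℓ i) ⊓ hyp (ℓ k))
    have h8 : (Zc q (hyp (ℓ i) ⊓ hyp (ℓ k)) : ℤ) = zz q 3 := by
      have h9 : ((NV q (fun v => dt (ℓ i) v = 0) : ℕ) : ℤ) =
        (NV q (fun v => dt (ℓ i) v = 0 ∧ dt (ℓ k) v = 0) : ℤ) +
          (NV q (fun v => dt (ℓ i) v = 0 ∧ ¬ dt (ℓ k) v = 0) : ℤ) := by exact_mod_cast h5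
      have h10 : (NV q (fun v => dt (ℓ i) v = 0) : ℤ) =
        ((Fintype.card K - 1 : ℕ) : ℤ) * (q ^ 5 + q ^ 3 + q ^ 2 + 1) := by exact_mod_cast h4
      have h11 : (NV q (fun v => dt (ℓ i) v = 0 ∧ ¬ dt (ℓ k) v = 0) : ℤ) =
        ((Fintype.card K - 1 : ℕ) : ℤ) * (q ^ 5 + q ^ 2) := by exact_mod_cast h3
      rw [h10, h11, h6, h7, hK] at h9
      rw [zz3]
      linarith
    have h12 := hyp_ne_of (hdist i k hik) (h0 i) (h0 k)
    exact ⟨h12, h8, (Zc_plane hq h12).1 h8⟩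
  refine ⟨hdist, htan, ?_⟩
  rcases Nat.eq_zero_or_pos e with he | he
  · subst he
    obtain ⟨hr, hz⟩ := Zc_hyp hq (h0 0) (htan 0)
    obtain ⟨u, hu, hc⟩ := exists_aniso hq (U := hyp (ℓ 0)) (by
      rw [hr]
      intro h3
      have := finrank_hyp (h0 0)
      rw [← h3, finrank_bot] at this
      omega)
    refine ⟨hyp (ℓ 0) ⊓ perp q u, ?_, ?_, ?_⟩
    · have := finrank_split (q := q) hu hc
      rw [finrank_hyp (h0 0)] at this
      omega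
    · intro i
      have : i = 0 := by
        apply Fin.ext
        have := i.isLt
        simp only [Fin.val_zero]
        omega
      rw [this]
      exact inf_le_left
    · rw [rad_split hq hu hc, hr]
  · obtain ⟨i1, hi1⟩ : ∃ i1 : Fin (e + 1), i1 ≠ 0 := by
      refine ⟨⟨1, by omega⟩, ?_⟩
      intro h3
      have := congrArg Fin.val h3
      simp at this
    obtain ⟨hf, hz, hr⟩ := hplane 0 i1 hi1.symm
    refine ⟨hyp (ℓ 0) ⊓ hyp (ℓ i1), hf, ?_, hr⟩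
    intro k
    by_cases hk0 : k = 0
    · rw [hk0]; exact inf_le_left
    by_cases hk1 : k = i1
    · rw [hk1]; exact inf_le_right
    by_contra hcon
    have h3 : finrank K ↥(hyp (ℓ 0) ⊓ hyp (ℓ i1) ⊓ hyp (ℓ k)) ≤ 2 := by
      have h4 : hyp (ℓ 0) ⊓ hyp (ℓ i1) ⊓ hyp (ℓ k) < hyp (ℓ 0) ⊓ hyp (ℓ i1) := by
        refine lt_of_le_of_ne inf_le_left ?_
        intro h5
        exact hcon (h5 ▸ inf_le_right)
      have := Submodule.finrank_lt_finrank_of_lt h4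
      omega
    have h4 : Zc q (hyp (ℓ 0) ⊓ hyp (ℓ i1)) ≤ cc (hyp (ℓ 0) ⊓ hyp (ℓ i1) ⊓ hyp (ℓ k)) := by
      unfold Zc cc
      apply card_le_card
      intro v hv
      rw [mem_filter] at hv ⊢
      refine ⟨mem_univ _, hv.2.1, ?_⟩
      by_cases hv0 : v = 0
      · rw [hv0]; exact Submodule.zero_mem _
      · exact (tight hq ℓ h0 h k).2.2 0 i1 v (Ne.symm hk0) (Ne.symm hk1) hi1.symm hv0 hv.2.2
          hv.2.1.1 hv.2.1.2
    rw [cc_eq hq] at h4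
    have h5 : q ^ (2 * finrank K ↥(hyp (ℓ 0) ⊓ hyp (ℓ i1) ⊓ hyp (ℓ k))) ≤ q ^ 4 :=
      Nat.pow_le_pow_right (by omega) (by omega)
    have h6 : (Zc q (hyp (ℓ 0) ⊓ hyp (ℓ i1)) : ℤ) ≤ ((q ^ 4 : ℕ) : ℤ) := by
      exact_mod_cast h4.trans h5
    rw [hz, zz3, hs] at h6
    push_cast at h6
    have : (0 : ℤ) < ((s : ℤ) + 2) ^ 5 - (s + 2) ^ 3 + (s + 2) ^ 2 - (s + 2) ^ 4 := by
      ring_nf; positivity
    linarith

theorem backward (hq : Fintype.card K = q ^ 2) {d : ℕ} (ℓ : Fin d → Fin 5 → K)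
    (h0 : ∀ i, ℓ i ≠ 0) (hd : ∀ i j, i ≠ j → hyp (ℓ i) ≠ hyp (ℓ j))
    (ht : ∀ i, ∑ j, ℓ i j ^ (q + 1) ≠ 0)
    (hpos : 1 ≤ d)
    (W : Submodule K (Fin 5 → K)) (hW : finrank K W = 3) (hWl : ∀ i, W ≤ hyp (ℓ i))
    (hr : rad q W = ⊥) :
    NV q (fun v => ∃ i, dt (ℓ i) v = 0) =
      (Fintype.card K - 1) * (d * (q ^ 5 + q ^ 2) + q ^ 3 + 1) := by
  classical
  have hK := cardK hq
  have hZW := (Zc_plane hq hW).2 hr
  have hNW := NV_sub (q := q) W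
  have hinf : ∀ i j, i ≠ j → hyp (ℓ i) ⊓ hyp (ℓ j) = W := by
    intro i j hij
    symm
    exact Submodule.eq_of_le_of_finrank_eq (le_inf (hWl i) (hWl j))
      (by rw [hW, hyp_ne_of (hd i j hij) (h0 i) (h0 j)])
  have h1 := NV_split (q := q) (fun v => ∃ i, dt (ℓ i) v = 0) (fun v => v ∈ W)
  have h2 : NV q (fun v => (∃ i, dt (ℓ i) v = 0) ∧ v ∈ W) = NV q (fun v => v ∈ W) := by
    apply NV_congr
    intro v
    constructor
    · exact fun h => h.2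
    · exact fun h => ⟨⟨⟨0, hpos⟩, hWl _ h⟩, h⟩
  have h3 : NV q (fun v => (∃ i, dt (ℓ i) v = 0) ∧ ¬ v ∈ W) =
      ∑ i, NV q (fun v => dt (ℓ i) v = 0 ∧ ¬ v ∈ W) := by
    unfold NV
    rw [← card_biUnion]
    · congr 1
      ext v
      simp only [mem_filter, mem_univ, true_and, mem_biUnion]
      constructor
      · rintro ⟨a, ⟨⟨i, hi⟩, b⟩, c⟩
        exact ⟨i, a, ⟨hi, b⟩, c⟩
      · rintro ⟨i, a, ⟨hi, b⟩, c⟩
        exact ⟨a, ⟨⟨i, hi⟩, b⟩, c⟩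
    · intro i _ j _ hij
      show Disjoint _ _
      rw [Finset.disjoint_left]
      intro v hv1 hv2
      rw [mem_filter] at hv1 hv2
      apply hv1.2.2.1.2
      rw [← hinf i j hij]
      exact ⟨hv1.2.2.1.1, hv2.2.2.1.1⟩
  have h4 : ∀ i, (NV q (fun v => dt (ℓ i) v = 0 ∧ ¬ v ∈ W) : ℤ) = zz q 4 - zz q 3 := by
    intro i
    have h5 := NV_split (q := q) (fun v => dt (ℓ i) v = 0) (fun v => v ∈ W)
    have h6 : NV q (fun v => dt (ℓ i) v = 0 ∧ v ∈ W) = NV q (fun v => v ∈ W) := by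
      apply NV_congr
      intro v
      constructor
      · exact fun h => h.2
      · exact fun h => ⟨hWl i h, h⟩
    have h7 := NV_hyp (q := q) (ℓ i)
    have h8 := (Zc_hyp hq (h0 i) (ht i)).2
    have h9 : ((NV q (fun v => dt (ℓ i) v = 0) : ℕ) : ℤ) =
        (NV q (fun v => dt (ℓ i) v = 0 ∧ v ∈ W) : ℤ) +
          (NV q (fun v => dt (ℓ i) v = 0 ∧ ¬ v ∈ W) : ℤ) := by exact_mod_cast h5
    rw [h6, hNW, h7, h8, hZW] at h9
    linarith
  have h10 : (NV q (fun v => ∃ i, dt (ℓ i) v = 0) : ℤ) =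
      (((Fintype.card K - 1) * (d * (q ^ 5 + q ^ 2) + q ^ 3 + 1) : ℕ) : ℤ) := by
    rw [h1, h2, h3]
    push_cast
    rw [hNW, hZW, sum_congr rfl fun i _ => h4 i, sum_const, card_univ, Fintype.card_fin, hK, zz3,
      zz4, nsmul_eq_mul]
    ring
  exact_mod_cast h10

end Pool.Agent.Y789.ED
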