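import Mathlib
import Pool.Agent.H566R3.Frame

/-! # Isotropic vectors of subspaces of the Hermitian space of dimension five -/

set_option autoImplicit false
set_option maxHeartbeats 400000

namespace Pool.Agent.Y789.ED

open Finset Module Pool.Agent.H566R3

variable {K : Type} [Field K] [Fintype K] [DecidableEq K] {q : ℕ}

/-- solutions of the norm equation -/
theorem card_norm (hq : Fintype.card K = q ^ 2) {s : K} (hs : s ^ q = s) (hs0 : s ≠ 0) :
    ((Finset.univ : Finset K).filter fun t => t ^ (q + 1) = s).card = q + 1 := by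
  have h2 := two_le_q hq
  let A : Finset K := Finset.univ.filter fun t => t ≠ 0
  let B : Finset K := (fixF K q).filter fun t => t ≠ 0
  have hA : A.card = q ^ 2 - 1 := by
    have : A = Finset.univ.erase 0 := by
      ext t; simp [A]
    rw [this, Finset.card_erase_of_mem (Finset.mem_univ _), Finset.card_univ, hq]
  have hB : B.card ≤ q - 1 := by
    have : B = (fixF K q).erase 0 := by
      ext t; simp [B, and_comm]
    have h0 : (0 : K) ∈ fixF K q := by
      simp [fixF]; omega
    rw [this, Finset.card_erase_of_mem h0]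
    have := card_fixF_le (K := K) hq
    omega
  have hfib : ∀ u ∈ B, ((A.filter fun t => t ^ (q + 1) = u)).card ≤ q + 1 := by
    intro u hu
    have hu0 : u ≠ 0 := by
      simp only [B, Finset.mem_filter] at hu; exact hu.2
    have hdeg : (Polynomial.X ^ (q + 1) - Polynomial.C u : Polynomial K).natDegree = q + 1 :=
      Polynomial.natDegree_X_pow_sub_C
    have h0 : (Polynomial.X ^ (q + 1) - Polynomial.C u : Polynomial K) ≠ 0 :=
      Polynomial.X_pow_sub_C_ne_zero (by omega) u
    refine (card_roots_aux _ h0 _ ?_).trans hdeg.le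
    intro t ht
    simp only [Finset.mem_filter] at ht
    simp [ht.2]
  have hmaps : ∀ t ∈ A, t ^ (q + 1) ∈ B := by
    intro t ht
    simp only [A, Finset.mem_filter, Finset.mem_univ, true_and] at ht
    simp only [B, fixF, Finset.mem_filter, Finset.mem_univ, true_and]
    refine ⟨?_, pow_ne_zero _ ht⟩
    rw [← pow_mul, add_mul, one_mul, pow_add, ← pow_two, ← hq, FiniteField.pow_card, pow_succ,
      mul_comm]
  have hcard : A.card = ∑ u ∈ B, (A.filter fun t => t ^ (q + 1) = u).card :=
    Finset.card_eq_sum_card_fiberwise (f := fun t => t ^ (q + 1)) hmaps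
  have hsB : s ∈ B := by
    simp only [B, fixF, Finset.mem_filter, Finset.mem_univ, true_and]
    exact ⟨hs, hs0⟩
  have hAs : ((Finset.univ : Finset K).filter fun t => t ^ (q + 1) = s) =
      A.filter fun t => t ^ (q + 1) = s := by
    ext t
    simp only [A, Finset.mem_filter, Finset.mem_univ, true_and]
    constructor
    · intro h
      refine ⟨?_, h⟩
      rintro rfl
      rw [zero_pow (by omega)] at h
      exact hs0 h.symm
    · exact fun h => h.2
  rw [hAs]
  by_contra hcon
  have hlt : (A.filter fun t => t ^ (q + 1) = s).card < q + 1 :=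
    lt_of_le_of_ne (hfib s hsB) hcon
  have h3 : ∑ u ∈ B, (A.filter fun t => t ^ (q + 1) = u).card < ∑ u ∈ B, (q + 1) :=
    Finset.sum_lt_sum hfib ⟨s, hsB, hlt⟩
  rw [← hcard, Finset.sum_const, smul_eq_mul, hA] at h3
  have h4 : B.card * (q + 1) ≤ (q - 1) * (q + 1) := Nat.mul_le_mul_right _ hB
  have h5 : (q - 1) * (q + 1) = q ^ 2 - 1 := by
    obtain ⟨r, rfl⟩ : ∃ r, q = r + 1 := ⟨q - 1, by omega⟩
    simp only [Nat.add_sub_cancel]
    have : (r + 1) ^ 2 = r * (r + 1 + 1) + 1 := by ring
    omega
  omega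

/-- the functional `v ↦ sf v u` -/
def sfl (q : ℕ) (u : Fin 5 → K) : (Fin 5 → K) →ₗ[K] K where
  toFun v := sf q v u
  map_add' x y := sf_add_left x y u
  map_smul' a x := by simp [sf_smul_left]

/-- vectors orthogonal to `u` -/
def perp (q : ℕ) (u : Fin 5 → K) : Submodule K (Fin 5 → K) := LinearMap.ker (sfl q u)

omit [Fintype K] [DecidableEq K] in
theorem mem_perp {u v : Fin 5 → K} : v ∈ perp q u ↔ sf q v u = 0 := Iff.rfl

/-- the radical of a subspace -/
def rad (q : ℕ) (U : Submodule K (Fin 5 → K)) : Submodule K (Fin 5 → K) where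
  carrier := {v | v ∈ U ∧ ∀ w ∈ U, sf q v w = 0}
  zero_mem' := ⟨U.zero_mem, fun w _ => by simp [sf]⟩
  add_mem' := by
    rintro a b ⟨ha, ha'⟩ ⟨hb, hb'⟩
    exact ⟨U.add_mem ha hb, fun w hw => by rw [sf_add_left, ha' w hw, hb' w hw, add_zero]⟩
  smul_mem' := by
    rintro c a ⟨ha, ha'⟩
    exact ⟨U.smul_mem c ha, fun w hw => by rw [sf_smul_left, ha' w hw, mul_zero]⟩

omit [Fintype K] [DecidableEq K] in
theorem mem_rad {U : Submodule K (Fin 5 → K)} {v : Fin 5 → K} :
    v ∈ rad q U ↔ v ∈ U ∧ ∀ w ∈ U, sf q v w = 0 := Iff.rfl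

omit [Fintype K] [DecidableEq K] in
theorem rad_le (U : Submodule K (Fin 5 → K)) : rad q U ≤ U := fun _ h => h.1

open Classical in
/-- the number of isotropic vectors of a subspace -/
noncomputable def Zc (q : ℕ) (U : Submodule K (Fin 5 → K)) : ℕ :=
  ((Finset.univ : Finset (Fin 5 → K)).filter fun v => v ∈ U ∧ sf q v v = 0).card

open Classical in
/-- the number of vectors of a subspace -/
noncomputable def cc (U : Submodule K (Fin 5 → K)) : ℕ :=
  ((Finset.univ : Finset (Fin 5 → K)).filter fun v => v ∈ U).card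

theorem cc_eq (hq : Fintype.card K = q ^ 2) (U : Submodule K (Fin 5 → K)) :
    cc U = q ^ (2 * finrank K U) := by
  classical
  have h1 : cc U = Fintype.card U := by
    rw [cc, Fintype.card_subtype]
  rw [h1, ← Nat.card_eq_fintype_card, Module.natCard_eq_pow_finrank (K := K),
    Nat.card_eq_fintype_card, hq, ← pow_mul]

/-- the component along `u` -/
theorem decomp_mem {U : Submodule K (Fin 5 → K)} {u : Fin 5 → K} (hu : u ∈ U)
    (hc : sf q u u ≠ 0) {v : Fin 5 → K} (hv : v ∈ U) :
    v - (sf q v u / sf q u u) • u ∈ U ⊓ perp q u := by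
  refine ⟨U.sub_mem hv (U.smul_mem _ hu), ?_⟩
  show sf q (v - (sf q v u / sf q u u) • u) u = 0
  rw [sub_eq_add_neg, sf_add_left, ← neg_smul, sf_smul_left]
  field_simp
  ring

theorem split (hq : Fintype.card K = q ^ 2) {U : Submodule K (Fin 5 → K)} {u : Fin 5 → K}
    (hu : u ∈ U) (hc : sf q u u ≠ 0) :
    (Zc q U : ℤ) = (q + 1) * cc (U ⊓ perp q u) - q * Zc q (U ⊓ perp q u) := by
  classical
  have h2 := two_le_q hq
  obtain ⟨c, hcdef⟩ : ∃ c, c = sf q u u := ⟨_, rfl⟩
  have hcq : c ^ q = c := by rw [hcdef]; exact sf_self_fix hq u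
  rw [← hcdef] at hc
  obtain ⟨T, hT⟩ : ∃ T : Finset (Fin 5 → K), T = Finset.univ.filter fun v => v ∈ U ⊓ perp q u :=
    ⟨_, rfl⟩
  obtain ⟨S, hS⟩ : ∃ S : Finset (Fin 5 → K), S = Finset.univ.filter fun v => v ∈ U ∧ sf q v v = 0 :=
    ⟨_, rfl⟩
  -- the form on `x u + w`
  have hform : ∀ (x : K) (w : Fin 5 → K), w ∈ U ⊓ perp q u →
      sf q (x • u + w) (x • u + w) = c * x ^ (q + 1) + sf q w w := by
    intro x w hw
    have hw2 : sf q w u = 0 := hw.2
    have hw3 : sf q u w = 0 := by
      rw [sf_symm hq w u, hw2, zero_pow (by omega)]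
    rw [sf_add_left, sf_add_right hq, sf_add_right hq, sf_smul_left, sf_smul_right, sf_smul_left,
      sf_smul_right, hw2, hw3, ← hcdef]
    ring
  have hmap : ∀ v ∈ S, v - (sf q v u / c) • u ∈ T := by
    intro v hv
    rw [hS, mem_filter] at hv
    rw [hT, mem_filter]
    refine ⟨mem_univ _, ?_⟩
    have := decomp_mem (q := q) hu (by rw [← hcdef]; exact hc) hv.2.1
    rwa [← hcdef] at this
  have hcard : S.card = ∑ w ∈ T, (S.filter fun v => v - (sf q v u / c) • u = w).card :=
    Finset.card_eq_sum_card_fiberwise hmap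
  have hfib : ∀ w ∈ T, (S.filter fun v => v - (sf q v u / c) • u = w).card =
      ((Finset.univ : Finset K).filter fun x => c * x ^ (q + 1) + sf q w w = 0).card := by
    intro w hw
    rw [hT, mem_filter] at hw
    symm
    refine Finset.card_bij (fun x _ => x • u + w) ?_ ?_ ?_
    · intro x hx
      rw [mem_filter] at hx
      rw [mem_filter, hS, mem_filter]
      refine ⟨⟨mem_univ _, U.add_mem (U.smul_mem _ hu) hw.2.1, ?_⟩, ?_⟩
      · rw [hform x w hw.2]; exact hx.2
      · have hw2 : sf q w u = 0 := hw.2.2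
        rw [sf_add_left, sf_smul_left, hw2, ← hcdef, add_zero, mul_div_assoc, div_self hc, mul_one]
        exact add_sub_cancel_left _ _
    · intro x _ y _ hxy
      have hu0 : u ≠ 0 := by
        rintro rfl
        apply hc
        rw [hcdef]; simp [sf]
      have := add_right_cancel hxy
      exact smul_left_injective K hu0 this
    · intro v hv
      rw [mem_filter, hS, mem_filter] at hv
      refine ⟨sf q v u / c, ?_, ?_⟩
      · rw [mem_filter]
        refine ⟨mem_univ _, ?_⟩
        rw [← hform _ w hw.2, ← hv.2, add_sub_cancel]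
        exact hv.1.2.2
      · rw [← hv.2, add_sub_cancel]
  have hval : ∀ w ∈ T, (((Finset.univ : Finset K).filter
      fun x => c * x ^ (q + 1) + sf q w w = 0).card : ℤ) =
      (q + 1) - (if sf q w w = 0 then (q : ℤ) else 0) := by
    intro w _
    split_ifs with h
    · have : ((Finset.univ : Finset K).filter fun x => c * x ^ (q + 1) + sf q w w = 0) = {0} := by
        ext x
        rw [mem_filter, mem_singleton, h, add_zero]
        constructor
        · rintro ⟨-, hx⟩
          exact eq_zero_of_pow_eq_zero ((mul_eq_zero.1 hx).resolve_left hc)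
        · rintro rfl
          exact ⟨mem_univ _, by rw [zero_pow (by omega), mul_zero]⟩
      rw [this, card_singleton]
      push_cast
      ring
    · have hs : (-sf q w w / c) ^ q = -sf q w w / c := by
        rw [div_pow, hcq, neg_pow_q hq, sf_self_fix hq]
      have hs0 : -sf q w w / c ≠ 0 := div_ne_zero (neg_ne_zero.2 h) hc
      have := card_norm hq hs hs0
      have h3 : ((Finset.univ : Finset K).filter fun x => c * x ^ (q + 1) + sf q w w = 0) =
          (Finset.univ : Finset K).filter fun x => x ^ (q + 1) = -sf q w w / c := by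
        ext x
        rw [mem_filter, mem_filter, eq_div_iff hc]
        constructor
        · rintro ⟨h1, h2⟩
          exact ⟨h1, by linear_combination h2⟩
        · rintro ⟨h1, h2⟩
          exact ⟨h1, by linear_combination h2⟩
      rw [h3, this]
      push_cast
      ring
  have e1 : (Zc q U : ℤ) = ∑ w ∈ T, ((q + 1) - (if sf q w w = 0 then (q : ℤ) else 0)) := by
    have : Zc q U = S.card := by rw [Zc, hS]
    rw [this, hcard]
    push_cast
    refine Finset.sum_congr rfl fun w hw => ?_
    rw [hfib w hw, hval w hw]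
  have e2 : cc (U ⊓ perp q u) = T.card := by rw [cc, hT]
  have e3 : Zc q (U ⊓ perp q u) = (T.filter fun w => sf q w w = 0).card := by
    rw [Zc, hT, Finset.filter_filter]
  rw [e1, sum_sub_distrib, sum_const, ← sum_filter, sum_const, e2, e3]
  simp only [nsmul_eq_mul]
  ring

theorem finrank_split {U : Submodule K (Fin 5 → K)} {u : Fin 5 → K}
    (hu : u ∈ U) (hc : sf q u u ≠ 0) : finrank K U = finrank K ↥(U ⊓ perp q u) + 1 := by
  have hu0 : u ≠ 0 := by
    rintro rfl
    apply hc
    simp [sf]
  have h1 : Submodule.span K {u} ⊔ (U ⊓ perp q u) = U := by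
    apply le_antisymm
    · refine sup_le ?_ inf_le_left
      rw [Submodule.span_singleton_le_iff_mem]
      exact hu
    · intro v hv
      rw [Submodule.mem_sup]
      refine ⟨(sf q v u / sf q u u) • u, Submodule.smul_mem _ _ (Submodule.mem_span_singleton_self u),
        _, decomp_mem hu hc hv, ?_⟩
      abel
  have h2 : Submodule.span K {u} ⊓ (U ⊓ perp q u) = ⊥ := by
    rw [eq_bot_iff]
    rintro v ⟨h3, h4⟩
    obtain ⟨a, rfl⟩ := Submodule.mem_span_singleton.1 h3
    have h5 : sf q (a • u) u = 0 := h4.2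
    rw [sf_smul_left] at h5
    rw [(mul_eq_zero.1 h5).resolve_right hc, zero_smul]
    exact Submodule.zero_mem _
  have h3 := Submodule.finrank_sup_add_finrank_inf_eq (Submodule.span K {u}) (U ⊓ perp q u)
  rw [h1, h2, finrank_bot, finrank_span_singleton hu0] at h3
  omega

theorem rad_split (hq : Fintype.card K = q ^ 2) {U : Submodule K (Fin 5 → K)} {u : Fin 5 → K}
    (hu : u ∈ U) (hc : sf q u u ≠ 0) : rad q (U ⊓ perp q u) = rad q U := by
  apply le_antisymm
  · rintro v ⟨⟨h1, h2⟩, h3⟩
    refine ⟨h1, fun w hw => ?_⟩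
    have h4 := h3 _ (decomp_mem hu hc hw)
    have h5 : w = (sf q w u / sf q u u) • u + (w - (sf q w u / sf q u u) • u) := by abel
    rw [h5, sf_add_right hq, sf_smul_right, h4, mem_perp.1 h2, mul_zero, add_zero]
  · rintro v ⟨h1, h2⟩
    exact ⟨⟨h1, h2 u hu⟩, fun w hw => h2 w hw.1⟩

theorem exists_aniso (hq : Fintype.card K = q ^ 2) {U : Submodule K (Fin 5 → K)}
    (h : rad q U ≠ U) : ∃ u ∈ U, sf q u u ≠ 0 := by
  have h2 := two_le_q hq
  by_contra hcon
  push Not at hcon
  apply h
  apply le_antisymm (rad_le U)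
  intro v hv
  refine ⟨hv, fun w hw => ?_⟩
  by_contra hs
  obtain ⟨t, ht⟩ := exists_tr hq (s := (1 : K)) (one_pow q)
  obtain ⟨lam, hlam⟩ : ∃ lam, lam = (t / sf q v w) ^ q := ⟨_, rfl⟩
  have h3 := hcon (v + lam • w) (U.add_mem hv (U.smul_mem _ hw))
  have hlq : lam ^ q = t / sf q v w := by rw [hlam, pow_q_q hq]
  rw [sf_add_left, sf_add_right hq, sf_add_right hq, sf_smul_left, sf_smul_right, sf_smul_left,
    sf_smul_right, hcon v hv, hcon w hw, sf_symm hq v w, hlq] at h3
  have h4 : t / sf q v w * sf q v w = t := div_mul_cancel₀ _ hs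
  have h5 : lam * sf q v w ^ q = t ^ q := by
    rw [hlam, ← mul_pow, h4]
  rw [h4, h5] at h3
  simp only [mul_zero, add_zero, zero_add] at h3
  rw [ht] at h3
  exact one_ne_zero h3

/-- the number of isotropic vectors in dimension `m` -/
def zz (q : ℕ) : ℕ → ℤ
  | 0 => 1
  | m + 1 => (q + 1) * q ^ (2 * m) - q * zz q m

theorem Zc_eq (hq : Fintype.card K = q ^ 2) (m r : ℕ) :
    ∀ U : Submodule K (Fin 5 → K), finrank K U = m + r → finrank K ↥(rad q U) = r →
      (Zc q U : ℤ) = zz q m * q ^ (2 * r) := by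
  induction m with
  | zero =>
    intro U h1 h2
    have h3 : rad q U = U := by
      apply Submodule.eq_of_le_of_finrank_eq (rad_le U)
      omega
    have h4 : Zc q U = cc U := by
      classical
      rw [Zc, cc]
      congr 1
      ext v
      simp only [mem_filter, mem_univ, true_and, and_iff_left_iff_imp]
      intro hv
      rw [← h3] at hv
      exact hv.2 v hv.1
    rw [h4, cc_eq hq, h1, zz]
    push_cast
    ring
  | succ m ih =>
    intro U h1 h2
    obtain ⟨u, hu, hc⟩ := exists_aniso hq (U := U) (by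
      intro h
      rw [h] at h2
      omega)
    have e1 := finrank_split (q := q) hu hc
    have e2 := ih (U ⊓ perp q u) (by omega) (by rw [rad_split hq hu hc]; exact h2)
    rw [split hq hu hc, e2, cc_eq hq, show finrank K ↥(U ⊓ perp q u) = m + r by omega, zz]
    push_cast
    ring

end Pool.Agent.Y789.ED
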