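import Pool.Agent.H566R3.Lin2
import Pool.Agent.Y789.ED.Herm

/-! # Hyperplane and plane sections -/

set_option autoImplicit false
set_option maxHeartbeats 400000

namespace Pool.Agent.Y789.ED

open Finset Module Pool.Agent.H566R3

variable {K : Type} [Field K]

/-- the linear form as a linear map -/
def dtl (a : Fin 5 → K) : (Fin 5 → K) →ₗ[K] K where
  toFun v := dt a v
  map_add' x y := by simp [dt, mul_add, sum_add_distrib]
  map_smul' c x := by
    simp only [dt, Pi.smul_apply, smul_eq_mul, mul_sum, RingHom.id_apply]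
    exact sum_congr rfl fun i _ => by ring

/-- the hyperplane with equation `a` -/
def hyp (a : Fin 5 → K) : Submodule K (Fin 5 → K) := LinearMap.ker (dtl a)

theorem mem_hyp {a v : Fin 5 → K} : v ∈ hyp a ↔ dt a v = 0 := Iff.rfl

theorem dtl_ne {a : Fin 5 → K} (ha : a ≠ 0) : dtl a ≠ 0 := by
  classical
  intro h
  apply ha
  funext i
  have := congrFun (congrArg DFunLike.coe h) (Pi.single i 1)
  simpa [dtl, dt, Pi.single_apply] using this

theorem finrank_hyp {a : Fin 5 → K} (ha : a ≠ 0) : finrank K (hyp a) = 4 := by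
  have h := Module.Dual.finrank_ker_add_one_of_ne_zero (dtl_ne ha)
  rw [finrank_fintype_fun_eq_card, Fintype.card_fin] at h
  have : finrank K (LinearMap.ker (dtl a)) = finrank K (hyp a) := rfl
  omega

theorem hyp_ne_of {a b : Fin 5 → K} (hab : hyp a ≠ hyp b) (ha : a ≠ 0) (hb : b ≠ 0) :
    finrank K ↥(hyp a ⊓ hyp b) = 3 := by
  have h := Submodule.finrank_sup_add_finrank_inf_eq (hyp a) (hyp b)
  rw [finrank_hyp ha, finrank_hyp hb] at h
  have h1 : finrank K ↥(hyp a ⊔ hyp b) ≤ 5 := by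
    have := Submodule.finrank_le (hyp a ⊔ hyp b)
    rwa [finrank_fintype_fun_eq_card, Fintype.card_fin] at this
  have h2 : finrank K ↥(hyp a ⊓ hyp b) ≠ 4 := by
    intro h4
    apply hab
    have e1 : hyp a ⊓ hyp b = hyp a :=
      Submodule.eq_of_le_of_finrank_eq inf_le_left (by rw [h4, finrank_hyp ha])
    have e2 : hyp a ⊓ hyp b = hyp b :=
      Submodule.eq_of_le_of_finrank_eq inf_le_right (by rw [h4, finrank_hyp hb])
    rw [← e1, e2]
  have h3 : finrank K ↥(hyp a ⊓ hyp b) ≤ 4 := by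
    have := Submodule.finrank_mono (inf_le_left : hyp a ⊓ hyp b ≤ hyp a)
    rwa [finrank_hyp ha] at this
  omega

variable [Fintype K] [DecidableEq K] {q : ℕ}

theorem hyp_eq_perp (hq : Fintype.card K = q ^ 2) (a : Fin 5 → K) :
    hyp a = perp q fun i => a i ^ q := by
  ext v
  rw [mem_hyp, mem_perp, dt, sf]
  have : ∑ i, a i * v i = ∑ i, v i * (a i ^ q) ^ q :=
    sum_congr rfl fun i _ => by rw [pow_q_q hq, mul_comm]
  rw [this]

theorem sf_conj (hq : Fintype.card K = q ^ 2) (a : Fin 5 → K) :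
    sf q (fun i => a i ^ q) (fun i => a i ^ q) = ∑ i, a i ^ (q + 1) := by
  rw [sf]
  refine sum_congr rfl fun i _ => ?_
  rw [pow_q_q hq, pow_succ]

/-- the orthogonal of `perp u` -/
theorem mem_span_of (hq : Fintype.card K = q ^ 2) {u v : Fin 5 → K} (hu : u ≠ 0)
    (h : ∀ w ∈ perp q u, sf q v w = 0) : ∃ κ : K, v = κ • u := by
  have h2 := two_le_q hq
  have h' : ∀ w ∈ perp q u, sf q w v = 0 := by
    intro w hw
    rw [sf_symm hq v w, h w hw, zero_pow (by omega)]
  obtain ⟨w0, hw0⟩ : ∃ w0, sf q w0 u ≠ 0 := by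
    by_contra hcon
    push Not at hcon
    exact hu (sf_nondeg hq hcon)
  obtain ⟨κ, hκ⟩ : ∃ κ : K, κ = (sf q w0 v / sf q w0 u) ^ q := ⟨_, rfl⟩
  have hκq : κ ^ q = sf q w0 v / sf q w0 u := by rw [hκ, pow_q_q hq]
  refine ⟨κ, ?_⟩
  have h3 : ∀ w, sf q w (v + (-κ) • u) = 0 := by
    intro w
    have h4 : w + (-(sf q w u / sf q w0 u)) • w0 ∈ perp q u := by
      rw [mem_perp, sf_add_left, sf_smul_left]
      field_simp
      ring
    have h5 := h' _ h4
    rw [sf_add_left, sf_smul_left] at h5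
    rw [sf_add_right hq, sf_smul_right, neg_pow_q hq, hκq]
    field_simp at h5 ⊢
    linear_combination h5
  have h4 := sf_nondeg hq h3
  have : v = κ • u := by
    have h5 : v + (-κ) • u = v - κ • u := by rw [neg_smul, sub_eq_add_neg]
    rw [h5, sub_eq_zero] at h4
    exact h4
  exact this

theorem rad_perp_aniso (hq : Fintype.card K = q ^ 2) {u : Fin 5 → K} (hu : sf q u u ≠ 0) :
    rad q (perp q u) = ⊥ := by
  have hu0 : u ≠ 0 := by
    rintro rfl
    apply hu
    simp [sf]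
  rw [eq_bot_iff]
  rintro v ⟨h1, h2⟩
  obtain ⟨κ, rfl⟩ := mem_span_of hq hu0 h2
  have h3 : sf q (κ • u) u = 0 := h1
  rw [sf_smul_left] at h3
  rw [(mul_eq_zero.1 h3).resolve_right hu, zero_smul]
  exact Submodule.zero_mem _

theorem rad_perp_iso (hq : Fintype.card K = q ^ 2) {u : Fin 5 → K} (hu0 : u ≠ 0)
    (hu : sf q u u = 0) : rad q (perp q u) = Submodule.span K {u} := by
  have h2 := two_le_q hq
  apply le_antisymm
  · rintro v ⟨h1, h2⟩
    obtain ⟨κ, rfl⟩ := mem_span_of hq hu0 h2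
    exact Submodule.smul_mem _ _ (Submodule.mem_span_singleton_self u)
  · rw [Submodule.span_singleton_le_iff_mem]
    refine ⟨hu, fun w hw => ?_⟩
    rw [sf_symm hq w u, mem_perp.1 hw, zero_pow (by omega)]

theorem zz3 (q : ℕ) : zz q 3 = (q : ℤ) ^ 5 - q ^ 3 + q ^ 2 := by
  simp only [zz]; ring

theorem zz4 (q : ℕ) : zz q 4 = (q : ℤ) ^ 7 + q ^ 4 - q ^ 3 := by
  simp only [zz]; ring

theorem Zc_hyp (hq : Fintype.card K = q ^ 2) {a : Fin 5 → K} (ha : a ≠ 0)
    (hn : ∑ i, a i ^ (q + 1) ≠ 0) : rad q (hyp a) = ⊥ ∧ (Zc q (hyp a) : ℤ) = zz q 4 := by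
  have h1 : rad q (hyp a) = ⊥ := by
    rw [hyp_eq_perp hq]
    exact rad_perp_aniso hq (by rw [sf_conj hq]; exact hn)
  refine ⟨h1, ?_⟩
  have h2 := Zc_eq hq 4 0 (hyp a) (by rw [finrank_hyp ha]) (by rw [h1, finrank_bot])
  rw [h2]
  ring

theorem Zc_tan (hq : Fintype.card K = q ^ 2) {a : Fin 5 → K} (ha : a ≠ 0)
    (hn : ∑ i, a i ^ (q + 1) = 0) : (Zc q (hyp a) : ℤ) = zz q 3 * q ^ 2 := by
  have h2 := two_le_q hq
  have hu0 : (fun i => a i ^ q) ≠ 0 := by
    intro h
    apply ha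
    funext i
    exact eq_zero_of_pow_eq_zero (congrFun h i)
  have h1 : finrank K ↥(rad q (hyp a)) = 1 := by
    rw [hyp_eq_perp hq, rad_perp_iso hq hu0 (by rw [sf_conj hq]; exact hn),
      finrank_span_singleton hu0]
  have h2 := Zc_eq hq 3 1 (hyp a) (by rw [finrank_hyp ha]) h1
  rw [h2]

theorem Zc_plane (hq : Fintype.card K = q ^ 2) {W : Submodule K (Fin 5 → K)}
    (hW : finrank K W = 3) : (Zc q W : ℤ) = zz q 3 ↔ rad q W = ⊥ := by
  have h2 := two_le_q hq
  obtain ⟨r, hr⟩ : ∃ r, r = finrank K ↥(rad q W) := ⟨_, rfl⟩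
  have hr3 : r ≤ 3 := by
    rw [hr, ← hW]
    exact Submodule.finrank_mono (rad_le W)
  obtain ⟨s, hs⟩ : ∃ s, q = s + 2 := ⟨q - 2, by omega⟩
  have h3 := Zc_eq hq (3 - r) r W (by omega) hr.symm
  constructor
  · intro h
    rw [← Submodule.finrank_eq_zero (R := K), ← hr]
    by_contra hne
    have : r = 1 ∨ r = 2 ∨ r = 3 := by omega
    rw [h, zz3] at h3
    rcases this with rfl | rfl | rfl
    · have e : zz q (3 - 1) = (q : ℤ) ^ 3 + q ^ 2 - q := by simp only [zz]; ring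
      rw [e, hs] at h3
      push_cast at h3
      have : (0 : ℤ) < (s + 2) ^ 4 - (s + 2) ^ 2 := by
        ring_nf; positivity
      nlinarith
    · have e : zz q (3 - 2) = 1 := by simp only [zz]; ring
      rw [e, hs] at h3
      push_cast at h3
      have : (0 : ℤ) < (s + 2) ^ 5 - (s + 2) ^ 3 + (s + 2) ^ 2 - (s + 2) ^ 4 := by
        ring_nf; positivity
      nlinarith
    · have e : zz q (3 - 3) = 1 := rfl
      rw [e, hs] at h3
      push_cast at h3
      have : (0 : ℤ) < (s + 2) ^ 6 - ((s + 2) ^ 5 - (s + 2) ^ 3 + (s + 2) ^ 2) := by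
        ring_nf; positivity
      nlinarith
  · intro h
    have h4 := Zc_eq hq 3 0 W (by omega) (by rw [h, finrank_bot])
    rw [h4]
    ring

end Pool.Agent.Y789.ED
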