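import Pool.Agent.H566R3.Engine3
import Pool.Agent.Y789.ED.Ar

set_option autoImplicit false
set_option maxHeartbeats 400000

/-! # The local estimate in the critical case -/

namespace Pool.Agent.Y789.ED

open Finset MvPolynomial Pool.Agent.H566R3

variable {K : Type} [Field K]

theorem pv_two {N : ℕ} (hN : 2 ≤ N) (f : ℕ → K) (hf : ∀ i, 2 ≤ i → f i = 0) (τ : K) :
    pv N f τ = f 0 + f 1 * τ := by
  rw [pv, ← sum_subset (range_subset_range.2 hN)]
  · rw [sum_range_succ, sum_range_one, pow_zero, pow_one, mul_one]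
  · intro i _ hi
    rw [mem_range, not_lt] at hi
    rw [hf i hi, zero_mul]

theorem pv_one {N : ℕ} (hN : 1 ≤ N) (f : ℕ → K) (hf : ∀ i, 1 ≤ i → f i = 0) (τ : K) :
    pv N f τ = f 0 := by
  rw [pv, ← sum_subset (range_subset_range.2 hN)]
  · rw [sum_range_one, pow_zero, mul_one]
  · intro i _ hi
    rw [mem_range, not_lt] at hi
    rw [hf i hi, zero_mul]

theorem pv_zero_fun {N : ℕ} (f : ℕ → K) (hf : ∀ i, f i = 0) (τ : K) : pv N f τ = 0 := by
  rw [pv]
  exact sum_eq_zero fun i _ => by rw [hf, zero_mul]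

theorem fv_special {N : ℕ} (hN : 2 ≤ N) (a : ℕ → ℕ → ℕ → K)
    (ha : ∀ i j l, a i j l ≠ 0 → i ≤ 1 ∧ j = 0) (τ lam w : K) :
    fv N a τ lam w = pv N (fun l => a 0 0 l) w + pv N (fun l => a 1 0 l) w * τ := by
  have z : ∀ i j, (2 ≤ i ∨ 1 ≤ j) → pv N (fun l => a i j l) w = 0 := by
    intro i j h
    refine pv_zero_fun _ (fun l => ?_) w
    by_contra hc
    have := ha i j l hc
    omega
  rw [fv, fw, pv_one (by omega)]
  · rw [pv_two hN]
    intro i hi
    exact z i 0 (Or.inl hi)
  · intro j hj
    refine pv_zero_fun _ (fun i => ?_) τ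
    exact z i j (Or.inr hj)

variable [Fintype K] [DecidableEq K] {q : ℕ}

theorem loc_special (hq : Fintype.card K = q ^ 2) {c : K} (hc : c ^ q = c) {N D : ℕ}
    (hN : D < N) (hN2 : 2 ≤ N) (hD : D ≤ q) (a : ℕ → ℕ → ℕ → K)
    (ha : ∀ i j l, a i j l ≠ 0 → i ≤ 1 ∧ j = 0 ∧ l ≤ D) (hne : ∃ i l, a i 0 l ≠ 0)
    (hconst : ∀ w, pv N (fun l => a 1 0 l) w = pv N (fun l => a 1 0 l) 0) :
    nloc q N c a ≤ q ^ 4 := by
  have h2 := two_le_q hq
  obtain ⟨α, hα⟩ : ∃ α, α = pv N (fun l => a 1 0 l) 0 := ⟨_, rfl⟩
  have hfv : ∀ τ lam w, fv N a τ lam w = pv N (fun l => a 0 0 l) w + α * τ := by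
    intro τ lam w
    rw [fv_special hN2 a (fun i j l h => ⟨(ha i j l h).1, (ha i j l h).2.1⟩), hconst w, ← hα]
  have hprod : ∀ w : K, ((trFib q (-(c * w ^ (q + 1))) ×ˢ (Finset.univ : Finset K)).filter
      fun P => fv N a P.1 P.2 w = 0).card =
      ((trFib q (-(c * w ^ (q + 1)))).filter fun τ => pv N (fun l => a 0 0 l) w + α * τ = 0).card *
        q ^ 2 := by
    intro w
    rw [← hq, ← Finset.card_univ, ← card_product]
    congr 1
    ext P
    simp only [mem_filter, mem_product, mem_univ, and_true]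
    rw [hfv]
  rw [nloc, sum_congr rfl fun w _ => hprod w, ← sum_mul]
  have key : ∑ w : K, ((trFib q (-(c * w ^ (q + 1)))).filter
      fun τ => pv N (fun l => a 0 0 l) w + α * τ = 0).card ≤ q ^ 2 := by
    by_cases hα0 : α = 0
    · have hz : ∀ l, a 1 0 l = 0 := by
        intro l
        by_contra hcon
        have h3 := ha 1 0 l hcon
        exact hcon (coeff_zero_of_all N (fun l => a 1 0 l) D (by
          intro l hl
          by_contra hcon
          have := ha 1 0 l hcon
          omega) (by rw [hq]; nlinarith) (by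
          intro x
          rw [hconst, ← hα, hα0]) l (by omega))
      obtain ⟨i, l, hil⟩ := hne
      have h0l : a 0 0 l ≠ 0 := by
        have := (ha i 0 l hil).1
        rcases Nat.le_one_iff_eq_zero_or_eq_one.1 this with h | h
        · rwa [h] at hil
        · rw [h] at hil
          exact absurd (hz l) hil
      obtain ⟨R, hR⟩ : ∃ R, R = (Finset.univ : Finset K).filter
        fun w => pv N (fun l => a 0 0 l) w = 0 := ⟨_, rfl⟩
      have hRc : R.card ≤ D := by
        refine card_zero_le N (fun l => a 0 0 l) D ?_ ⟨l, ?_, h0l⟩ R ?_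
        · intro l hl
          by_contra hcon
          have := ha 0 0 l hcon
          omega
        · have := ha 0 0 l h0l
          omega
        · intro w hw
          rw [hR, mem_filter] at hw
          exact hw.2
      have hle : ∀ w : K, ((trFib q (-(c * w ^ (q + 1)))).filter
          fun τ => pv N (fun l => a 0 0 l) w + α * τ = 0).card ≤ if w ∈ R then q else 0 := by
        intro w
        split_ifs with hw
        · exact (card_le_card (filter_subset _ _)).trans (card_T hq hc w).le
        · rw [Nat.le_zero, card_eq_zero, filter_eq_empty_iff]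
          intro τ _ h
          apply hw
          rw [hR, mem_filter]
          rw [hα0, zero_mul, add_zero] at h
          exact ⟨mem_univ _, h⟩
      refine (sum_le_sum fun w _ => hle w).trans ?_
      rw [← sum_filter, filter_mem_eq_inter, univ_inter, sum_const, smul_eq_mul]
      calc R.card * q ≤ q * q := Nat.mul_le_mul_right _ (hRc.trans hD)
        _ = q ^ 2 := by ring
    · have hle : ∀ w : K, ((trFib q (-(c * w ^ (q + 1)))).filter
          fun τ => pv N (fun l => a 0 0 l) w + α * τ = 0).card ≤ 1 := by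
        intro w
        rw [card_le_one]
        intro x hx y hy
        rw [mem_filter] at hx hy
        have h := hx.2.trans hy.2.symm
        exact mul_left_cancel₀ hα0 (add_left_cancel h)
      refine (sum_le_sum fun w _ => hle w).trans ?_
      rw [sum_const, card_univ, hq, smul_eq_mul, mul_one]
  calc _ ≤ q ^ 2 * q ^ 2 := Nat.mul_le_mul_right _ key
    _ = q ^ 4 := by ring

omit [Fintype K] [DecidableEq K] in
/-- the shape of a polynomial whose top part does not involve the last variable -/
theorem shape {F : MvPolynomial (Fin 5) K} (h01 : Deg01 F 1)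
    (h4 : ∀ s, coeff s F ≠ 0 → s 0 + s 1 = 1 → s 4 = 0) (x0 x1 x2 x3 w : K) :
    eval ![x0, x1, x2, x3, w] F - eval ![0, 0, x2, x3, w] F =
      eval ![x0, x1, x2, x3, 0] F - eval ![0, 0, x2, x3, 0] F := by
  rw [eval_five, eval_five, eval_five, eval_five, ← sum_sub_distrib, ← sum_sub_distrib]
  refine sum_congr rfl fun s hs => ?_
  rw [mem_support_iff] at hs
  have h1 := h01 s hs
  simp only [Matrix.cons_val]
  rcases Nat.eq_zero_or_pos (s 0 + s 1) with h0 | h0
  · have e0 : s 0 = 0 := by omega
    have e1 : s 1 = 0 := by omega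
    rw [e0, e1]
    ring
  · have h5 := h4 s hs (by omega)
    rw [h5]
    rcases Nat.eq_zero_or_pos (s 0) with h6 | h6
    · have e1 : s 1 = 1 := by omega
      rw [h6, e1]
      ring
    · have e1 : s 1 = 0 := by omega
      have e0 : s 0 = 1 := by omega
      rw [e0, e1]
      ring

end Pool.Agent.Y789.ED
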