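import Pool.Agent.Y789.ED.Hyp
import Pool.Agent.Y789.ED.Bound

/-! # The case of equality -/

set_option autoImplicit false
set_option maxHeartbeats 800000

namespace Pool.Agent.Y789.ED

open Finset Module MvPolynomial Pool.Agent.H566R3

variable {K : Type} [Field K] [Fintype K] [DecidableEq K] {q : ℕ}

/-- number of nonzero isotropic vectors with property `P` -/
def NV (q : ℕ) (P : (Fin 5 → K) → Prop) [DecidablePred P] : ℕ :=
  ((Finset.univ : Finset (Fin 5 → K)).filter fun v => v ≠ 0 ∧ P v ∧ sf q v v = 0).card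

theorem NV_mono {P Q : (Fin 5 → K) → Prop} [DecidablePred P] [DecidablePred Q]
    (h : ∀ v, P v → Q v) : NV q P ≤ NV q Q := by
  apply card_le_card
  intro v hv
  rw [mem_filter] at hv ⊢
  exact ⟨hv.1, hv.2.1, h v hv.2.2.1, hv.2.2.2⟩

theorem NV_or {P Q R : (Fin 5 → K) → Prop} [DecidablePred P] [DecidablePred Q] [DecidablePred R]
    (h : ∀ v, P v → Q v ∨ R v) : NV q P ≤ NV q Q + NV q R := by
  unfold NV
  refine le_trans (card_le_card (t :=
    ((Finset.univ : Finset (Fin 5 → K)).filter fun v => v ≠ 0 ∧ Q v ∧ sf q v v = 0) ∪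
    ((Finset.univ : Finset (Fin 5 → K)).filter fun v => v ≠ 0 ∧ R v ∧ sf q v v = 0)) ?_)
    (card_union_le _ _)
  intro v hv
  rw [mem_filter] at hv
  rw [mem_union, mem_filter, mem_filter]
  rcases h v hv.2.2.1 with h1 | h1
  · exact Or.inl ⟨hv.1, hv.2.1, h1, hv.2.2.2⟩
  · exact Or.inr ⟨hv.1, hv.2.1, h1, hv.2.2.2⟩

theorem const_of_homog {F : MvPolynomial (Fin 5) K} (hF : F.IsHomogeneous 0) (h0 : F ≠ 0) :
    ∃ c : K, c ≠ 0 ∧ F = C c := by
  refine ⟨coeff 0 F, ?_, ?_⟩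
  · intro h
    apply h0
    rw [(totalDegree_eq_zero_iff_eq_C).1 (Nat.le_zero.1 hF.totalDegree_le), h, C_0]
  · exact (totalDegree_eq_zero_iff_eq_C).1 (Nat.le_zero.1 hF.totalDegree_le)

theorem tight_factor (hq : Fintype.card K = q ^ 2) (b : Fin 5 → K) (D : ℕ) :
    ∀ F : MvPolynomial (Fin 5) K, F.IsHomogeneous D → F ≠ 0 → D < q →
    (Fintype.card K - 1) * (D * (q ^ 5 + q ^ 2)) ≤ NV q (fun v => eval v F = 0 ∧ dt b v ≠ 0) →
    ∃ ℓ : Fin D → Fin 5 → K, (∀ i, ℓ i ≠ 0) ∧ ∃ c : K, c ≠ 0 ∧ F = C c * ∏ i, lf (ℓ i) := by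
  have h2 := two_le_q hq
  induction D with
  | zero =>
    intro F hF h0 _ _
    obtain ⟨c, hc, hFc⟩ := const_of_homog hF h0
    exact ⟨fun i => i.elim0, fun i => i.elim0, c, hc, by simpa using hFc⟩
  | succ D ih =>
    intro F hF h0 hDq hcount
    by_cases hNL : NL F
    · have h := NL_bound' hq hF (by omega) hDq.le hNL
      rw [if_neg (by omega), add_zero] at h
      have h3 : NV q (fun v => eval v F = 0 ∧ dt b v ≠ 0) ≤ NV q (fun v => eval v F = 0) :=
        NV_mono fun v h => h.1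
      exact absurd (hcount.trans h3) (not_le.2 h)
    · rw [NL] at hNL
      push Not at hNL
      obtain ⟨a, ha, hav⟩ := hNL
      obtain ⟨F', hF', hF'h⟩ := factor hF (by rw [hq]; nlinarith) ha hav
      have hF'0 : F' ≠ 0 := by
        rintro rfl
        exact h0 (by rw [hF', mul_zero])
      have h4 : NV q (fun v => dt a v = 0 ∧ dt b v ≠ 0) ≤
          (Fintype.card K - 1) * (q ^ 5 + q ^ 2) := H2 hq ha b
      have h5 : NV q (fun v => eval v F = 0 ∧ dt b v ≠ 0) ≤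
          NV q (fun v => dt a v = 0 ∧ dt b v ≠ 0) +
            NV q (fun v => eval v F' = 0 ∧ dt b v ≠ 0) := by
        apply NV_or
        rintro v ⟨h6, h7⟩
        rw [hF', map_mul, eval_lf, mul_eq_zero] at h6
        rcases h6 with h6 | h6
        · exact Or.inl ⟨h6, h7⟩
        · exact Or.inr ⟨h6, h7⟩
      have h6 : (Fintype.card K - 1) * ((D + 1) * (q ^ 5 + q ^ 2)) =
          (Fintype.card K - 1) * (D * (q ^ 5 + q ^ 2)) +
            (Fintype.card K - 1) * (q ^ 5 + q ^ 2) := by ring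
      obtain ⟨ℓ, hℓ, c, hc, hFc⟩ := ih F' hF'h hF'0 (by omega) (by omega)
      refine ⟨Fin.cons a ℓ, ?_, c, hc, ?_⟩
      · intro i
        refine Fin.cases ?_ (fun j => ?_) i
        · simpa using ha
        · simpa using hℓ j
      · rw [hF', hFc, Fin.prod_univ_succ]
        simp only [Fin.cons_zero, Fin.cons_succ]
        ring

theorem main_factor (hq : Fintype.card K = q ^ 2) {F : MvPolynomial (Fin 5) K} {D : ℕ}
    (hF : F.IsHomogeneous D) (h0 : F ≠ 0) (hD : 1 ≤ D) (hDq : D ≤ q)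
    (hcount : NV q (fun v => eval v F = 0) =
      (Fintype.card K - 1) * (D * (q ^ 5 + q ^ 2) + q ^ 3 + 1)) :
    ∃ ℓ : Fin D → Fin 5 → K, (∀ i, ℓ i ≠ 0) ∧ ∃ c : K, c ≠ 0 ∧ F = C c * ∏ i, lf (ℓ i) := by
  have h2 := two_le_q hq
  by_cases hNL : NL F
  · have h := NL_bound' hq hF hD hDq hNL
    have h3 : (Fintype.card K - 1) * (D * (q ^ 5 + q ^ 2) + if D = q then q ^ 3 + 1 else 0) ≤
        (Fintype.card K - 1) * (D * (q ^ 5 + q ^ 2) + q ^ 3 + 1) := by
      apply Nat.mul_le_mul_left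
      split_ifs <;> omega
    exact absurd hcount (ne_of_lt (lt_of_lt_of_le h h3))
  · rw [NL] at hNL
    push Not at hNL
    obtain ⟨a, ha, hav⟩ := hNL
    obtain ⟨E, rfl⟩ : ∃ E, D = E + 1 := ⟨D - 1, by omega⟩
    obtain ⟨F', hF', hF'h⟩ := factor hF (by rw [hq]; nlinarith) ha hav
    have hF'0 : F' ≠ 0 := by
      rintro rfl
      exact h0 (by rw [hF', mul_zero])
    have h4 : NV q (fun v => dt a v = 0) ≤
        (Fintype.card K - 1) * (q ^ 5 + q ^ 3 + q ^ 2 + 1) := H1 hq ha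
    have h5 : NV q (fun v => eval v F = 0) ≤ NV q (fun v => dt a v = 0) +
        NV q (fun v => eval v F' = 0 ∧ dt a v ≠ 0) := by
      apply NV_or
      intro v h6
      rw [hF', map_mul, eval_lf, mul_eq_zero] at h6
      by_cases h : dt a v = 0
      · exact Or.inl h
      · exact Or.inr ⟨h6.resolve_left h, h⟩
    have h6 : (Fintype.card K - 1) * ((E + 1) * (q ^ 5 + q ^ 2) + q ^ 3 + 1) =
        (Fintype.card K - 1) * (E * (q ^ 5 + q ^ 2)) +
          (Fintype.card K - 1) * (q ^ 5 + q ^ 3 + q ^ 2 + 1) := by ring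
    obtain ⟨ℓ, hℓ, c, hc, hFc⟩ := tight_factor hq a E F' hF'h hF'0 (by omega) (by omega)
    refine ⟨Fin.cons a ℓ, ?_, c, hc, ?_⟩
    · intro i
      refine Fin.cases ?_ (fun j => ?_) i
      · simpa using ha
      · simpa using hℓ j
    · rw [hF', hFc, Fin.prod_univ_succ]
      simp only [Fin.cons_zero, Fin.cons_succ]
      ring

/-- consequences of equality for a union of hyperplanes -/
theorem tight (hq : Fintype.card K = q ^ 2) {e : ℕ} (ℓ : Fin (e + 1) → Fin 5 → K)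
    (h0 : ∀ i, ℓ i ≠ 0)
    (h : NV q (fun v => ∃ i, dt (ℓ i) v = 0) =
      (Fintype.card K - 1) * ((e + 1) * (q ^ 5 + q ^ 2) + q ^ 3 + 1)) (k : Fin (e + 1)) :
    NV q (fun v => dt (ℓ k) v = 0) = (Fintype.card K - 1) * (q ^ 5 + q ^ 3 + q ^ 2 + 1) ∧
    (∀ i, i ≠ k → NV q (fun v => dt (ℓ i) v = 0 ∧ dt (ℓ k) v ≠ 0) =
      (Fintype.card K - 1) * (q ^ 5 + q ^ 2)) ∧
    ∀ i j v, i ≠ k → j ≠ k → i ≠ j → v ≠ 0 → sf q v v = 0 → dt (ℓ i) v = 0 →
      dt (ℓ j) v = 0 → dt (ℓ k) v = 0 := by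
  obtain ⟨M, hM⟩ : ∃ M, M = (Fintype.card K - 1) * (q ^ 5 + q ^ 2) := ⟨_, rfl⟩
  obtain ⟨M0, hM0⟩ : ∃ M0, M0 = (Fintype.card K - 1) * (q ^ 5 + q ^ 3 + q ^ 2 + 1) := ⟨_, rfl⟩
  obtain ⟨S, hS⟩ : ∃ S : Fin (e + 1) → Finset (Fin 5 → K), S = fun i =>
    (Finset.univ : Finset (Fin 5 → K)).filter
      fun v => v ≠ 0 ∧ (dt (ℓ i) v = 0 ∧ dt (ℓ k) v ≠ 0) ∧ sf q v v = 0 := ⟨_, rfl⟩
  have hSc : ∀ i, (S i).card = NV q (fun v => dt (ℓ i) v = 0 ∧ dt (ℓ k) v ≠ 0) := by
    intro i; rw [hS]; rfl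
  have hSM : ∀ i, (S i).card ≤ M := by
    intro i
    rw [hSc, hM]
    exact H2 hq (h0 i) (ℓ k)
  obtain ⟨A, hA⟩ : ∃ A : Finset (Fin 5 → K), A = (Finset.univ : Finset (Fin 5 → K)).filter
      fun v => v ≠ 0 ∧ dt (ℓ k) v = 0 ∧ sf q v v = 0 := ⟨_, rfl⟩
  have hAc : A.card = NV q (fun v => dt (ℓ k) v = 0) := by rw [hA]; rfl
  have hAM : A.card ≤ M0 := by
    rw [hAc, hM0]
    exact H1 hq (h0 k)
  have hT : NV q (fun v => ∃ i, dt (ℓ i) v = 0) ≤
      A.card + ((Finset.univ.erase k).biUnion S).card := by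
    unfold NV
    refine le_trans (card_le_card (t := A ∪ (Finset.univ.erase k).biUnion S) ?_)
      (card_union_le _ _)
    intro v hv
    rw [mem_filter] at hv
    obtain ⟨-, hv0, ⟨i, hi⟩, hiso⟩ := hv
    rw [mem_union]
    by_cases hk : dt (ℓ k) v = 0
    · left
      rw [hA, mem_filter]
      exact ⟨mem_univ _, hv0, hk, hiso⟩
    · right
      rw [mem_biUnion]
      refine ⟨i, ?_, ?_⟩
      · rw [mem_erase]
        refine ⟨?_, mem_univ _⟩
        rintro rfl
        exact hk hi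
      · rw [hS, mem_filter]
        exact ⟨mem_univ _, hv0, ⟨hi, hk⟩, hiso⟩
  have hcard : (Finset.univ.erase k).card = e := by
    rw [card_erase_of_mem (mem_univ _), card_univ, Fintype.card_fin, Nat.add_sub_cancel]
  have hU : ((Finset.univ.erase k).biUnion S).card ≤ ∑ i ∈ Finset.univ.erase k, (S i).card :=
    card_biUnion_le
  have hsum : ∑ i ∈ Finset.univ.erase k, (S i).card ≤ e * M := by
    refine (sum_le_sum fun i _ => hSM i).trans ?_
    rw [sum_const, hcard, smul_eq_mul]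
  have htot : (Fintype.card K - 1) * ((e + 1) * (q ^ 5 + q ^ 2) + q ^ 3 + 1) = M0 + e * M := by
    rw [hM0, hM]; ring
  rw [h, htot] at hT
  refine ⟨?_, ?_, ?_⟩
  · rw [← hAc, ← hM0]; omega
  · intro i hi
    rw [← hSc, ← hM]
    by_contra hne
    have hlt : (S i).card < M := lt_of_le_of_ne (hSM i) hne
    have : ∑ i ∈ Finset.univ.erase k, (S i).card < ∑ i ∈ Finset.univ.erase k, M :=
      sum_lt_sum (fun i _ => hSM i) ⟨i, mem_erase.2 ⟨hi, mem_univ _⟩, hlt⟩
    rw [sum_const, hcard, smul_eq_mul] at this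
    omega
  · intro i j v hi hj hij hv0 hiso hvi hvj
    by_contra hk
    have hvSi : v ∈ S i := by
      rw [hS, mem_filter]; exact ⟨mem_univ _, hv0, ⟨hvi, hk⟩, hiso⟩
    have hvSj : v ∈ S j := by
      rw [hS, mem_filter]; exact ⟨mem_univ _, hv0, ⟨hvj, hk⟩, hiso⟩
    have hjm : j ∈ Finset.univ.erase k := mem_erase.2 ⟨hj, mem_univ _⟩
    have hsub : (Finset.univ.erase k).biUnion S ⊆
        ((Finset.univ.erase k).erase j).biUnion S ∪ (S j).erase v := by
      intro w hw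
      rw [mem_biUnion] at hw
      obtain ⟨l, hl, hwl⟩ := hw
      rw [mem_union]
      by_cases hlj : l = j
      · subst hlj
        by_cases hwv : w = v
        · left
          rw [mem_biUnion, hwv]
          exact ⟨i, mem_erase.2 ⟨hij, mem_erase.2 ⟨hi, mem_univ _⟩⟩, hvSi⟩
        · right
          exact mem_erase.2 ⟨hwv, hwl⟩
      · left
        rw [mem_biUnion]
        exact ⟨l, mem_erase.2 ⟨hlj, hl⟩, hwl⟩
    have h3 := (card_le_card hsub).trans (card_union_le _ _)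
    have h4 : (((Finset.univ.erase k).erase j).biUnion S).card ≤
        ∑ i ∈ (Finset.univ.erase k).erase j, (S i).card := card_biUnion_le
    have h5 : ((S j).erase v).card = (S j).card - 1 := card_erase_of_mem hvSj
    have h6 : 0 < (S j).card := card_pos.2 ⟨v, hvSj⟩
    have h7 : (S j).card + ∑ i ∈ (Finset.univ.erase k).erase j, (S i).card =
        ∑ i ∈ Finset.univ.erase k, (S i).card := add_sum_erase _ (fun i => (S i).card) hjm
    omega

/-- number of nonzero isotropic vectors of a subspace -/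
theorem NV_sub (U : Submodule K (Fin 5 → K)) [DecidablePred fun v => v ∈ U] :
    (NV q (fun v => v ∈ U) : ℤ) = Zc q U - 1 := by
  classical
  have h1 : ((Finset.univ : Finset (Fin 5 → K)).filter
      fun v => v ≠ 0 ∧ v ∈ U ∧ sf q v v = 0) =
      ((Finset.univ : Finset (Fin 5 → K)).filter fun v => v ∈ U ∧ sf q v v = 0).erase 0 := by
    ext v
    simp only [mem_filter, mem_univ, true_and, mem_erase]
  have h0 : (0 : Fin 5 → K) ∈
      (Finset.univ : Finset (Fin 5 → K)).filter fun v => v ∈ U ∧ sf q v v = 0 := by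
    rw [mem_filter]
    exact ⟨mem_univ _, U.zero_mem, by simp [sf]⟩
  have h2 : NV q (fun v => v ∈ U) =
      ((Finset.univ : Finset (Fin 5 → K)).filter fun v => v ∈ U ∧ sf q v v = 0).card - 1 := by
    rw [NV]
    rw [← card_erase_of_mem h0]
    rw [← h1]
  have h3 : 0 < ((Finset.univ : Finset (Fin 5 → K)).filter
    fun v => v ∈ U ∧ sf q v v = 0).card := card_pos.2 ⟨0, h0⟩
  have h4 : Zc q U = ((Finset.univ : Finset (Fin 5 → K)).filter
    fun v => v ∈ U ∧ sf q v v = 0).card := by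
    unfold Zc
    congr!
  rw [h2, h4]
  omega

end Pool.Agent.Y789.ED
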